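import Mathlib
import Pool.Agent.Lib.MP_938ce2_ag_u2.Defs

/-!
Definitions for the count of the degenerate CM types over an arbitrary CM field.
-/

set_option autoImplicit false
set_option linter.unusedSectionVars false

namespace Pool.Agent.Lib.MP_938ce2_ag_u3

open Finset Module MonoidAlgebra
open Pool.Agent.Lib.MP_938ce2_ag_h67 (sg VV ev mkV Orb red kerM)
open Pool.Agent.Lib.MP_938ce2_ag_h60 (CMType)
open Pool.Agent.Lib.MP_938ce2_ag_u2 (Act OddM badC mem_badC dM dE dH)

/-- the exceptional quotients of `X` by normal subgroups `K`: the involution acts without fixed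
points, the group induced by `G` has at most `2 |X / K|` elements, and `|X / K| / 2` is not prime
to `6` -/
def Exc (G X : Type) [Group G] [MulAction G X] (c : G) (K : Subgroup G) : Prop :=
  K.Normal ∧ (∀ x : X, ∀ k ∈ K, k • x ≠ c • x) ∧
    (∀ σ : G, (∀ x : X, ∃ k ∈ K, σ • x = k • x) → σ ∈ K) ∧
    K.index ≤ 2 * Nat.card (Orb K X) ∧ ¬ (Nat.card (Orb K X) / 2).Coprime 6

end Pool.Agent.Lib.MP_938ce2_ag_u3
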