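import Mathlib
import Pool.Agent.Lib.MP_938ce2_ag_h65u.Fibre
import Pool.Agent.Lib.MP_938ce2_ag_u2.ThreeA
import Pool.Agent.Lib.MP_938ce2_ag_u3.Defs3

/-!
Row FibreC: CM types and elements of the group algebra of the complement.
-/

set_option autoImplicit false
set_option linter.unusedSectionVars false

namespace Pool.Agent.Lib.MP_938ce2_ag_u3

open Finset Module MonoidAlgebra
open Pool.Agent.Lib.MP_938ce2_ag_h67 (sg VV ev mkV Orb red kerM)
open Pool.Agent.Lib.MP_938ce2_ag_h60 (CMType)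
open Pool.Agent.Lib.MP_938ce2_ag_u2 (Act OddM badC mem_badC dM dE dH)

variable {G X : Type} [Group G] [Fintype G] [MulAction G X] [Fintype X] [DecidableEq X] {c : G}
  {g : ℕ} [MulAction.IsPretransitive G X]

open Pool.Agent.Lib.MP_938ce2_ag_h65u (ker_set mem_ker_set sv)
open Pool.Agent.Lib.MP_938ce2_ag_h67 (ev_ext ev_single ev_add ev_smul)

namespace FibreCAux

/-- the family of subsets of `Fin r` given by the points over the subgroup -/
def fm {X Q : Type} [Group Q] {P : Subgroup Q} {π : X → Q} {r : ℕ} [DecidableEq X]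
    (b : ∀ p : P, {x // π x = (p : Q)⁻¹} ≃ Fin r) (Φ : Finset X) (p : P) : Finset (Fin r) :=
  univ.filter fun i => (((b p).symm i : {x // π x = (p : Q)⁻¹}) : X) ∈ Φ

variable {X Q : Type} [Group Q] {P : Subgroup Q} {π : X → Q} {r : ℕ} [DecidableEq X]
  (b : ∀ p : P, {x // π x = (p : Q)⁻¹} ≃ Fin r)

lemma mem_fm (Φ : Finset X) (p : P) (i : Fin r) :
    i ∈ fm b Φ p ↔ (((b p).symm i : {x // π x = (p : Q)⁻¹}) : X) ∈ Φ := by
  unfold fm
  rw [Finset.mem_filter]
  exact ⟨fun h => h.2, fun h => ⟨Finset.mem_univ _, h⟩⟩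

lemma mem_of_fm (Φ : Finset X) (x : X) (hx : π x ∈ P) :
    x ∈ Φ ↔ b ⟨(π x)⁻¹, P.inv_mem hx⟩ ⟨x, by rw [inv_inv]⟩ ∈ fm b Φ ⟨(π x)⁻¹, P.inv_mem hx⟩ := by
  rw [mem_fm, Equiv.symm_apply_apply]

lemma sv_fm (Φ : Finset X) (p : P) [Fintype {x // π x = (p : Q)⁻¹}] :
    sv (fm b Φ p) = ∑ x : {x // π x = (p : Q)⁻¹}, sg Φ (x : X) := by
  have h1 : ∑ x : {x // π x = (p : Q)⁻¹}, sg Φ (x : X)
      = ∑ i : Fin r, sg Φ (((b p).symm i : {x // π x = (p : Q)⁻¹}) : X) :=
    (Equiv.sum_comp (b p).symm (fun x : {x // π x = (p : Q)⁻¹} => sg Φ (x : X))).symm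
  rw [h1]
  have h2 : ∀ i : Fin r, sg Φ (((b p).symm i : {x // π x = (p : Q)⁻¹}) : X)
      = 2 * (if i ∈ fm b Φ p then 1 else 0) - 1 := by
    intro i
    unfold sg
    by_cases h : (((b p).symm i : {x // π x = (p : Q)⁻¹}) : X) ∈ Φ
    · rw [if_pos h, if_pos ((mem_fm b Φ p i).mpr h)]
      norm_num
    · rw [if_neg h, if_neg (fun h' => h ((mem_fm b Φ p i).mp h'))]
      norm_num
  rw [Finset.sum_congr rfl fun i _ => h2 i, Finset.sum_sub_distrib, ← Finset.mul_sum,
    Finset.sum_boole, Finset.sum_const, Finset.card_univ, Fintype.card_fin]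
  unfold sv
  have h3 : (univ.filter fun i => i ∈ fm b Φ p) = fm b Φ p := by
    ext i
    rw [Finset.mem_filter]
    exact ⟨fun h => h.2, fun h => ⟨Finset.mem_univ _, h⟩⟩
  rw [h3, nsmul_eq_mul, mul_one]

/-- the points over the subgroup -/
def eqv : (Σ p : P, {x // π x = (p : Q)⁻¹}) ≃ {x // π x ∈ P} where
  toFun t := ⟨t.2.1, by
    rw [t.2.2]
    exact P.inv_mem t.1.2⟩
  invFun x := ⟨⟨(π x)⁻¹, P.inv_mem x.2⟩, ⟨x.1, by rw [inv_inv]⟩⟩
  left_inv := by
    rintro ⟨⟨y, hy⟩, ⟨x, hx⟩⟩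
    obtain rfl : y = (π x)⁻¹ := by rw [hx, inv_inv]
    rfl
  right_inv _ := rfl

end FibreCAux

open FibreCAux

theorem fibre_c (hA : Act G X c g) (M : Submodule (MonoidAlgebra ℚ G) (VV ℚ G X))
    [Nontrivial M] (hodd : OddM c M) (hst : ∀ (τ : G) (x : X), τ • x = x → τ ∈ kerM M)
    (P : Subgroup (G ⧸ kerM M)) [Fintype P]
    (hP : ∀ y : G ⧸ kerM M, y ∈ P ∨ (c : G ⧸ kerM M) * y ∈ P) (hcP : (c : G ⧸ kerM M) ∉ P)
    [Module (MonoidAlgebra ℚ P) M] [IsScalarTower ℚ (MonoidAlgebra ℚ P) M]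
    (h : ∀ (σ : G) (p : P) (s : M), (p : G ⧸ kerM M) = (σ : G ⧸ kerM M) →
        (MonoidAlgebra.single p (1 : ℚ) : MonoidAlgebra ℚ P) • s
          = (MonoidAlgebra.single σ (1 : ℚ) : MonoidAlgebra ℚ G) • s) :
    ∃ r : ℕ, 1 ≤ r ∧ g = r * Fintype.card P ∧ (badC c M).card ≤ (ker_set P M r).card := by
  classical
  have hfin : Module.Finite ℚ M := Module.Finite.of_injective (M.subtype.restrictScalars ℚ)
    Subtype.val_injective
  have hne : Nonempty X := by
    rw [← Fintype.card_pos_iff, hA.card]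
    have := hA.pos
    omega
  obtain ⟨x₀⟩ := hne
  let φ : G →* G ⧸ kerM M := QuotientGroup.mk' (kerM M)
  have hφ : Function.Surjective φ := QuotientGroup.mk'_surjective _
  obtain ⟨π, hπ⟩ := Pool.Agent.Lib.MP_938ce2_ag_h65u.exists_pi φ x₀
    (fun τ h => (QuotientGroup.eq_one_iff τ).2 (hst τ x₀ h))
  have hπs : ∀ (τ : G) (x : X), π (τ • x) = (τ : G ⧸ kerM M) * π x :=
    Pool.Agent.Lib.MP_938ce2_ag_h65u.pi_smul hπ
  let _ : Fintype (G ⧸ kerM M) := Fintype.ofFinite _
  obtain ⟨r, hr1, hr2, hr3⟩ := Pool.Agent.Lib.MP_938ce2_ag_h65u.exists_r hπ hφ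
  set cb : G ⧸ kerM M := (c : G ⧸ kerM M) with hcb
  have hcbc : ∀ q : G ⧸ kerM M, cb * q = q * cb := by
    intro q
    induction q using QuotientGroup.induction_on with
    | H z => rw [hcb, ← QuotientGroup.mk_mul, hA.comm, QuotientGroup.mk_mul]
  have hcb2 : cb * cb = 1 := by rw [hcb, ← QuotientGroup.mk_mul, hA.sq, QuotientGroup.mk_one]
  have hnot : ∀ y : G ⧸ kerM M, y ∈ P → cb * y ∉ P := by
    intro y hy h1
    apply hcP
    have h2 := P.mul_mem h1 (P.inv_mem hy)
    rwa [mul_inv_cancel_right] at h2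
  have hiff : ∀ y : G ⧸ kerM M, cb * y ∈ P ↔ y ∉ P :=
    fun y => ⟨fun h1 h2 => hnot y h2 h1, fun h1 => (hP y).resolve_left h1⟩
  have hidx : P.index = 2 := by
    rw [Subgroup.index_eq_two_iff]
    refine ⟨cb, fun y => ?_⟩
    rw [← hcbc]
    by_cases hy : y ∈ P
    · exact Or.inr ⟨hy, hnot y hy⟩
    · exact Or.inl ⟨(hiff y).2 hy, hy⟩
  have hcardQ : Fintype.card (G ⧸ kerM M) = Fintype.card P * 2 := by
    have h1 := P.card_mul_index
    rw [hidx, Nat.card_eq_fintype_card, Nat.card_eq_fintype_card] at h1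
    exact h1.symm
  have hg : g = r * Fintype.card P := by
    have h1 := hA.card
    rw [hr3, hcardQ] at h1
    have h2 : 2 * (r * Fintype.card P) = 2 * g := by rw [← h1]; ring
    omega
  refine ⟨r, hr1, hg, ?_⟩
  let b : ∀ p : P, {x // π x = (p : G ⧸ kerM M)⁻¹} ≃ Fin r := fun p =>
    Fintype.equivFinOfCardEq (hr2 _)
  refine Finset.card_le_card_of_injOn (fm b) (fun Φ hΦ => ?_) (fun Φ hΦ Φ' hΦ' he => ?_)
  · -- a bad CM type gives an element acting with kernel
    obtain ⟨hcm, M', ⟨e⟩, horth⟩ := (mem_badC c M Φ).mp hΦ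
    let L : M →ₗ[ℚ] ℚ :=
      { toFun := fun s => ev ((e s : M') : VV ℚ G X) x₀
        map_add' := by
          intro s t
          rw [map_add]
          exact ev_add _ _ _
        map_smul' := by
          intro a s
          rw [LinearMapClass.map_smul_of_tower e]
          exact ev_smul _ _ _ }
    have hL : ∀ s, L s = ev ((e s : M') : VV ℚ G X) x₀ := fun s => rfl
    have hLσ : ∀ (s : M) (σ : G), ev ((e s : M') : VV ℚ G X) (σ • x₀)
        = L ((MonoidAlgebra.single σ⁻¹ (1 : ℚ) : MonoidAlgebra ℚ G) • s) := by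
      intro s σ
      rw [hL, map_smul]
      show _ = ev (MonoidAlgebra.single σ⁻¹ (1 : ℚ) • ((e s : M') : VV ℚ G X)) x₀
      rw [ev_single, one_mul, inv_inv]
    have hLx : ∀ (s : M) (p : P) (x : X), π x = (p : G ⧸ kerM M)⁻¹ →
        ev ((e s : M') : VV ℚ G X) x
          = L ((MonoidAlgebra.single p (1 : ℚ) : MonoidAlgebra ℚ P) • s) := by
      intro s p x hx
      obtain ⟨σ, rfl⟩ := MulAction.exists_smul_eq G x₀ x
      rw [hLσ, h σ⁻¹ p s]
      rw [hπ] at hx
      rw [QuotientGroup.mk_inv]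
      have h1 : φ σ = (σ : G ⧸ kerM M) := rfl
      rw [← h1, hx, inv_inv]
    have hoddM' : ∀ (s : M) (x : X), ev ((e s : M') : VV ℚ G X) (c • x)
        = -ev ((e s : M') : VV ℚ G X) x := by
      intro s x
      obtain ⟨σ, rfl⟩ := MulAction.exists_smul_eq G x₀ x
      have hinv : c⁻¹ = c := by rw [inv_eq_iff_mul_eq_one, hA.sq]
      have h1 : (MonoidAlgebra.single c (1 : ℚ) : MonoidAlgebra ℚ G) • s = -s := by
        apply Subtype.ext
        show MonoidAlgebra.single c (1 : ℚ) • (s : VV ℚ G X) = -(s : VV ℚ G X)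
        apply ev_ext
        intro x
        rw [ev_single, one_mul, hinv, hodd _ s.2 x]
        rfl
      have h2 : (MonoidAlgebra.single (σ⁻¹ * c) (1 : ℚ) : MonoidAlgebra ℚ G)
          = MonoidAlgebra.single σ⁻¹ (1 : ℚ) * MonoidAlgebra.single c (1 : ℚ) := by
        rw [MonoidAlgebra.single_mul_single, one_mul]
      rw [← mul_smul, hLσ, hLσ, mul_inv_rev, hinv, h2, mul_smul, h1, smul_neg, map_neg]
    let T : M →ₗ[ℚ] M := ∑ p : P, ((sv (fm b Φ p) : ℤ) : ℚ) •
      (Module.toModuleEnd ℚ M (MonoidAlgebra.single p (1 : ℚ) : MonoidAlgebra ℚ P))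
    have hT : ∀ s, T s = ∑ p : P, ((sv (fm b Φ p) : ℤ) : ℚ) •
        ((MonoidAlgebra.single p (1 : ℚ) : MonoidAlgebra ℚ P) • s) := by
      intro s
      show (∑ p : P, ((sv (fm b Φ p) : ℤ) : ℚ) •
        (Module.toModuleEnd ℚ M (MonoidAlgebra.single p (1 : ℚ) : MonoidAlgebra ℚ P))) s = _
      rw [LinearMap.sum_apply]
      rfl
    have hLT : ∀ s, L (T s) = 0 := by
      intro s
      rw [hT, map_sum]
      set F : X → ℚ := fun x => (sg Φ x : ℚ) * ev ((e s : M') : VV ℚ G X) x with hF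
      have h1 : ∑ x, F x = 0 := horth _ (e s).2
      have hsg : ∀ x, sg Φ (c • x) = -sg Φ x := by
        intro x
        unfold sg
        by_cases hx : x ∈ Φ
        · rw [if_pos hx, if_neg ((hcm x).1 hx)]
        · have h2 : c • x ∈ Φ := by
            by_contra h3
            exact hx ((hcm x).2 h3)
          rw [if_neg hx, if_pos h2, neg_neg]
      have hFc : ∀ x, F (c • x) = F x := by
        intro x
        simp only [hF]
        rw [hsg, hoddM']
        push_cast
        ring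
      have h2 : ∑ x ∈ univ.filter (fun x => π x ∉ P), F x
          = ∑ x ∈ univ.filter (fun x => π x ∈ P), F x := by
        refine Finset.sum_nbij' (fun x => c • x) (fun x => c • x) ?_ ?_ ?_ ?_ ?_
        · intro x hx
          rw [Finset.mem_filter] at hx ⊢
          refine ⟨Finset.mem_univ _, ?_⟩
          rw [hπs]
          exact (hiff _).2 hx.2
        · intro x hx
          rw [Finset.mem_filter] at hx ⊢
          refine ⟨Finset.mem_univ _, ?_⟩
          rw [hπs]
          exact hnot _ hx.2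
        · intro x _
          show c • c • x = x
          rw [← mul_smul, hA.sq, one_smul]
        · intro x _
          show c • c • x = x
          rw [← mul_smul, hA.sq, one_smul]
        · intro x _
          exact (hFc x).symm
      have h3 : ∑ x ∈ univ.filter (fun x => π x ∈ P), F x = 0 := by
        have h4 := Finset.sum_filter_add_sum_filter_not univ (fun x => π x ∈ P) F
        rw [h2, h1] at h4
        linarith
      have h5 : ∑ x ∈ univ.filter (fun x => π x ∈ P), F x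
          = ∑ p : P, ∑ x : {x // π x = (p : G ⧸ kerM M)⁻¹}, F x := by
        rw [← Fintype.sum_sigma (fun t : (Σ p : P, {x // π x = (p : G ⧸ kerM M)⁻¹}) => F t.2.1),
          Finset.sum_subtype (univ.filter (fun x => π x ∈ P)) (p := fun x => π x ∈ P)
            (fun x => by simp) F]
        exact (Fintype.sum_equiv eqv _ _ (fun t => rfl)).symm
      rw [← h3, h5]
      refine Finset.sum_congr rfl fun p _ => ?_
      rw [map_smul, smul_eq_mul, sv_fm, Int.cast_sum, Finset.sum_mul]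
      refine Finset.sum_congr rfl fun x _ => ?_
      simp only [hF]
      rw [hLx s p x x.2]
    have hLne : ∃ s, L s ≠ 0 := by
      by_contra hcon
      push Not at hcon
      obtain ⟨s, hs⟩ := exists_ne (0 : M)
      apply hs
      apply e.injective
      rw [map_zero]
      apply Subtype.ext
      apply ev_ext
      intro x
      obtain ⟨σ, rfl⟩ := MulAction.exists_smul_eq G x₀ x
      rw [hLσ, hcon]
      rfl
    have hninj : ¬ Function.Injective T := by
      intro hinj
      have hsurj := LinearMap.surjective_of_injective hinj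
      obtain ⟨s, hs⟩ := hLne
      obtain ⟨t, rfl⟩ := hsurj s
      exact hs (hLT t)
    rw [← LinearMap.ker_eq_bot, LinearMap.ker_eq_bot'] at hninj
    push Not at hninj
    obtain ⟨v, hv, hv0⟩ := hninj
    rw [Finset.mem_coe, mem_ker_set]
    exact ⟨v, hv0, by rw [← hT, hv]⟩
  · -- a CM type is determined by its points over the subgroup
    have hcm := ((mem_badC c M Φ).mp hΦ).1
    have hcm' := ((mem_badC c M Φ').mp hΦ').1
    have key : ∀ x, π x ∈ P → (x ∈ Φ ↔ x ∈ Φ') := by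
      intro x hx
      rw [mem_of_fm b Φ x hx, mem_of_fm b Φ' x hx]
      rw [show fm b Φ = fm b Φ' from he]
    ext x
    by_cases hx : π x ∈ P
    · exact key x hx
    · have h1 : π (c • x) ∈ P := by
        rw [hπs]
        exact (hiff _).2 hx
      rw [hcm x, hcm' x, key _ h1]

end Pool.Agent.Lib.MP_938ce2_ag_u3
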