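import Mathlib
import Pool.Agent.Lib.MP_938ce2_ag_h85d.MainU
import Pool.Agent.Lib.MP_938ce2_ag_u2.ThreeC
import Pool.Agent.Lib.MP_938ce2_ag_u3.Defs3

/-!
Row RegGrp: a complement of the involution in a quotient acting regularly.
-/

set_option autoImplicit false
set_option linter.unusedSectionVars false

namespace Pool.Agent.Lib.MP_938ce2_ag_u3

open Finset Module MonoidAlgebra
open Pool.Agent.Lib.MP_938ce2_ag_h67 (sg VV ev mkV Orb red kerM)
open Pool.Agent.Lib.MP_938ce2_ag_h60 (CMType)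
open Pool.Agent.Lib.MP_938ce2_ag_u2 (Act OddM badC mem_badC dM dE dH)

variable {G X : Type} [Group G] [Fintype G] [MulAction G X] [Fintype X] [DecidableEq X] {c : G}
  {g : ℕ} [MulAction.IsPretransitive G X]

theorem reg_grp (hA : Act G X c g) (K : Subgroup G) [K.Normal]
    (hfree : ∀ x : X, ∀ k ∈ K, k • x ≠ c • x) (hst : ∀ (τ : G) (x : X), τ • x = x → τ ∈ K)
    (hw : (Nat.card (Orb K X) / 2).Coprime 6) :
    ∃ P : Subgroup (G ⧸ K), (Nat.card P).Coprime 6 ∧
      (∀ y : G ⧸ K, y ∈ P ∨ (c : G ⧸ K) * y ∈ P) ∧ (c : G ⧸ K) ∉ P := by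
  classical
  have hne : Nonempty X := by
    rw [← Fintype.card_pos_iff, hA.card]
    have := hA.pos
    omega
  obtain ⟨x0⟩ := hne
  obtain ⟨w, hw1, -⟩ := Pool.Agent.Lib.MP_938ce2_ag_u2.ThreeCAux.orb_card hA K hfree x0
  have hw2 : Nat.card (Orb K X) / 2 = w := by omega
  rw [hw2] at hw
  -- the orbits are the cosets
  have hcard : Nat.card (G ⧸ K) = 2 * w := by
    rw [← hw1]
    refine Nat.card_congr (Equiv.ofBijective
      (fun q : G ⧸ K => Quotient.liftOn' q
        (fun σ : G => Pool.Agent.Lib.MP_938ce2_ag_h67.Orb.mk K (σ • x0)) ?_) ⟨?_, ?_⟩)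
    · intro a b h
      rw [QuotientGroup.leftRel_apply] at h
      show Pool.Agent.Lib.MP_938ce2_ag_h67.Orb.mk K (a • x0) =
        Pool.Agent.Lib.MP_938ce2_ag_h67.Orb.mk K (b • x0)
      rw [Pool.Agent.Lib.MP_938ce2_ag_h67.Orb.mk_eq]
      refine ⟨a * b⁻¹, ?_, by rw [← mul_smul, inv_mul_cancel_right]⟩
      have h1 := K.inv_mem ((inferInstance : K.Normal).conj_mem _ h a)
      have e : (a * (a⁻¹ * b) * a⁻¹)⁻¹ = a * b⁻¹ := by group
      rwa [e] at h1
    · intro q r
      induction q using QuotientGroup.induction_on with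
      | H a =>
        induction r using QuotientGroup.induction_on with
        | H b =>
          intro h
          have h1 : Pool.Agent.Lib.MP_938ce2_ag_h67.Orb.mk K (a • x0) =
            Pool.Agent.Lib.MP_938ce2_ag_h67.Orb.mk K (b • x0) := h
          rw [Pool.Agent.Lib.MP_938ce2_ag_h67.Orb.mk_eq] at h1
          obtain ⟨k, hk, h2⟩ := h1
          have h3 : a⁻¹ * k * b ∈ K := by
            refine hst _ x0 ?_
            rw [mul_smul, mul_smul, h2, inv_smul_smul]
          have h4 : (a⁻¹ * k * a) ∈ K := by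
            have := (inferInstance : K.Normal).conj_mem _ hk a⁻¹
            rwa [inv_inv] at this
          rw [QuotientGroup.eq]
          have e : a⁻¹ * b = (a⁻¹ * k * a)⁻¹ * (a⁻¹ * k * b) := by group
          rw [e]
          exact K.mul_mem (K.inv_mem h4) h3
    · intro o
      obtain ⟨x, rfl⟩ := Pool.Agent.Lib.MP_938ce2_ag_h67.Orb.mk_surj K o
      obtain ⟨σ, rfl⟩ := MulAction.exists_smul_eq G x0 x
      exact ⟨(σ : G ⧸ K), rfl⟩
  set cb : G ⧸ K := (c : G ⧸ K) with hcb
  have hcbc : ∀ q : G ⧸ K, cb * q = q * cb := by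
    intro q
    induction q using QuotientGroup.induction_on with
    | H z => rw [hcb, ← QuotientGroup.mk_mul, hA.comm, QuotientGroup.mk_mul]
  have hcb2 : cb * cb = 1 := by rw [hcb, ← QuotientGroup.mk_mul, hA.sq, QuotientGroup.mk_one]
  have hcb1 : cb ≠ 1 := by
    intro h
    have : c ∈ K := (QuotientGroup.eq_one_iff c).1 h
    exact hfree x0 c this rfl
  have hord : orderOf cb = 2 := by
    have : Fact (Nat.Prime 2) := ⟨Nat.prime_two⟩
    exact orderOf_eq_prime (by rw [pow_two, hcb2]) hcb1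
  have hwpos : 1 ≤ w := by
    rcases Nat.eq_zero_or_pos w with h | h
    · rw [h, mul_zero] at hcard
      exact absurd hcard Nat.card_pos.ne'
    · exact h
  obtain ⟨P0, hP6, hP⟩ := Pool.Agent.Lib.MP_938ce2_ag_h85d.U.exists_complement (Γ := G ⧸ K)
    (X := G ⧸ K) (fun x y => ⟨y * x⁻¹, by simp⟩) cb hcbc hcb2
    (fun x h => hcb1 (mul_eq_right.1 (show cb * x = x from h))) w hcard hcard hw hwpos
  refine ⟨P0, hP6, fun y => ?_, fun h => ?_⟩
  · obtain ⟨σ, hσ, h | h⟩ := hP 1 y
    · left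
      rw [smul_eq_mul, mul_one] at h
      rw [← h]
      exact hσ
    · right
      rw [smul_eq_mul, mul_one, smul_eq_mul] at h
      rw [← h]
      exact hσ
  · have h3 : orderOf (⟨cb, h⟩ : P0) = 2 := by rw [← hord]; exact Subgroup.orderOf_mk _ _
    have h4 : 2 ∣ Nat.card P0 := h3 ▸ orderOf_dvd_natCard (⟨cb, h⟩ : P0)
    have h5 : 2 ∣ Nat.gcd (Nat.card P0) 6 := Nat.dvd_gcd h4 (by norm_num)
    rw [hP6] at h5
    omega

end Pool.Agent.Lib.MP_938ce2_ag_u3
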