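import Mathlib
import Pool.Agent.Lib.MP_938ce2_ag_h65u.Trans
import Pool.Agent.Lib.MP_938ce2_ag_u2.ThreeC
import Pool.Agent.Lib.MP_938ce2_ag_u3.Defs3

/-!
Row RegSimple: a simple odd module over a complement of the involution.
-/

set_option autoImplicit false
set_option linter.unusedSectionVars false

namespace Pool.Agent.Lib.MP_938ce2_ag_u3

open Finset Module MonoidAlgebra
open Pool.Agent.Lib.MP_938ce2_ag_h67 (sg VV ev mkV Orb red kerM)
open Pool.Agent.Lib.MP_938ce2_ag_h60 (CMType)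
open Pool.Agent.Lib.MP_938ce2_ag_u2 (Act OddM badC mem_badC dM dE dH)

variable {G X : Type} [Group G] [Fintype G] [MulAction G X] [Fintype X] [DecidableEq X] {c : G}
  {g : ℕ} [MulAction.IsPretransitive G X]

open Pool.Agent.Lib.MP_938ce2_ag_h67 (actL actL_apply actL_mul)
open Pool.Agent.Lib.MP_938ce2_ag_u2.ThreeCAux (rho rho_mk actL_c)

/-- the group algebra of the complement acts through the same operators -/
private lemma rs_op (hA : Act G X c g) (M : Submodule (MonoidAlgebra ℚ G) (VV ℚ G X))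
    (hodd : OddM c M) (P : Subgroup (G ⧸ kerM M))
    (hP : ∀ y : G ⧸ kerM M, y ∈ P ∨ (c : G ⧸ kerM M) * y ∈ P)
    [Module (MonoidAlgebra ℚ P) M] [IsScalarTower ℚ (MonoidAlgebra ℚ P) M]
    (h : ∀ (σ : G) (p : P) (s : M), (p : G ⧸ kerM M) = (σ : G ⧸ kerM M) →
        (MonoidAlgebra.single p (1 : ℚ) : MonoidAlgebra ℚ P) • s
          = (MonoidAlgebra.single σ (1 : ℚ) : MonoidAlgebra ℚ G) • s)
    (x : MonoidAlgebra ℚ G) : ∃ y : MonoidAlgebra ℚ P, ∀ s : M, y • s = x • s := by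
  induction x using MonoidAlgebra.induction_linear with
  | zero => exact ⟨0, fun s => by rw [zero_smul, zero_smul]⟩
  | add f k hf hk =>
    obtain ⟨y, hy⟩ := hf
    obtain ⟨z, hz⟩ := hk
    exact ⟨y + z, fun s => by rw [add_smul, add_smul, hy, hz]⟩
  | single σ a =>
    have h1 : (MonoidAlgebra.single σ a : MonoidAlgebra ℚ G)
        = a • MonoidAlgebra.single σ (1 : ℚ) := by
      rw [MonoidAlgebra.smul_single, smul_eq_mul, mul_one]
    rcases hP (σ : G ⧸ kerM M) with h2 | h2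
    · refine ⟨a • MonoidAlgebra.single (⟨_, h2⟩ : P) (1 : ℚ), fun s => ?_⟩
      rw [h1, smul_assoc, smul_assoc, h σ ⟨_, h2⟩ s rfl]
    · refine ⟨(-a) • MonoidAlgebra.single (⟨_, h2⟩ : P) (1 : ℚ), fun s => ?_⟩
      rw [h1, smul_assoc, smul_assoc, h (c * σ) ⟨_, h2⟩ s (QuotientGroup.mk_mul _ _ _).symm]
      have h3 : (MonoidAlgebra.single (c * σ) (1 : ℚ) : MonoidAlgebra ℚ G) • s
          = -((MonoidAlgebra.single σ (1 : ℚ) : MonoidAlgebra ℚ G) • s) := by
        have h4 := congrArg (fun t : M →ₗ[ℚ] M => t s) (actL_mul M c σ)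
        rw [Module.End.mul_apply, actL_c hA M hodd, actL_apply, actL_apply] at h4
        exact h4
      rw [h3, smul_neg, neg_smul, neg_neg]

theorem reg_simple (hA : Act G X c g) (M : Submodule (MonoidAlgebra ℚ G) (VV ℚ G X))
    (hs : IsSimpleModule (MonoidAlgebra ℚ G) M) (hodd : OddM c M)
    (P : Subgroup (G ⧸ kerM M)) (hP : ∀ y : G ⧸ kerM M, y ∈ P ∨ (c : G ⧸ kerM M) * y ∈ P) :
    ∃ (_ : Module (MonoidAlgebra ℚ P) M) (_ : IsScalarTower ℚ (MonoidAlgebra ℚ P) M),
      (∀ (σ : G) (p : P) (s : M), (p : G ⧸ kerM M) = (σ : G ⧸ kerM M) →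
        (MonoidAlgebra.single p (1 : ℚ) : MonoidAlgebra ℚ P) • s
          = (MonoidAlgebra.single σ (1 : ℚ) : MonoidAlgebra ℚ G) • s) ∧
      IsSimpleModule (MonoidAlgebra ℚ P) M ∧
      finrank ℚ (M →ₗ[MonoidAlgebra ℚ P] M) = dE M := by
  let f : MonoidAlgebra ℚ P →ₐ[ℚ] Module.End ℚ M :=
    MonoidAlgebra.lift ℚ (Module.End ℚ M) P ((rho M).comp P.subtype)
  let inst : Module (MonoidAlgebra ℚ P) M := Module.compHom M f.toRingHom
  have hdef : ∀ (x : MonoidAlgebra ℚ P) (s : M), x • s = f x s := fun _ _ => rfl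
  have htow : IsScalarTower ℚ (MonoidAlgebra ℚ P) M := ⟨fun a x s => by
    rw [hdef, hdef, map_smul, LinearMap.smul_apply]⟩
  have h : ∀ (σ : G) (p : P) (s : M), (p : G ⧸ kerM M) = (σ : G ⧸ kerM M) →
        (MonoidAlgebra.single p (1 : ℚ) : MonoidAlgebra ℚ P) • s
          = (MonoidAlgebra.single σ (1 : ℚ) : MonoidAlgebra ℚ G) • s := by
    intro σ p s hp
    rw [hdef, MonoidAlgebra.lift_single, one_smul]
    show rho M (p : G ⧸ kerM M) s = _
    rw [hp, rho_mk, actL_apply]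
  have hop := rs_op hA M hodd P hP h
  refine ⟨inst, htow, h, ?_, ?_⟩
  · rw [isSimpleModule_iff_toSpanSingleton_surjective] at hs ⊢
    refine ⟨hs.1, fun s hs0 t => ?_⟩
    obtain ⟨x, hx⟩ := hs.2 s hs0 t
    obtain ⟨y, hy⟩ := hop x
    refine ⟨y, ?_⟩
    rw [LinearMap.toSpanSingleton_apply] at hx ⊢
    rw [hy, hx]
  · let e : (M →ₗ[MonoidAlgebra ℚ P] M) ≃ₗ[ℚ] (M →ₗ[MonoidAlgebra ℚ G] M) :=
      { toFun := fun k => MonoidAlgebra.equivariantOfLinearOfComm (k.restrictScalars ℚ) (by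
          intro σ v
          obtain ⟨y, hy⟩ := hop (MonoidAlgebra.single σ (1 : ℚ))
          show k (MonoidAlgebra.single σ (1 : ℚ) • v) = MonoidAlgebra.single σ (1 : ℚ) • k v
          rw [← hy, map_smul, hy])
        invFun := fun k => MonoidAlgebra.equivariantOfLinearOfComm (k.restrictScalars ℚ) (by
          intro p v
          obtain ⟨σ, hσ⟩ := QuotientGroup.mk_surjective (p : G ⧸ kerM M)
          show k (MonoidAlgebra.single p (1 : ℚ) • v) = MonoidAlgebra.single p (1 : ℚ) • k v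
          rw [h σ p v hσ.symm, map_smul, h σ p _ hσ.symm])
        map_add' := fun _ _ => rfl
        map_smul' := fun _ _ => rfl
        left_inv := fun _ => rfl
        right_inv := fun _ => rfl }
    exact e.finrank_eq

end Pool.Agent.Lib.MP_938ce2_ag_u3
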