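import Mathlib
import Pool.Agent.Lib.MP_938ce2_ag_u3.RegGrp
import Pool.Agent.Lib.MP_938ce2_ag_u3.RegSimple
import Pool.Agent.Lib.MP_938ce2_ag_u3.FibreC

/-!
Row RegMod: the modules trivial on the stabilizers, as modules over a group of order prime to 6.
-/

set_option autoImplicit false
set_option linter.unusedSectionVars false

namespace Pool.Agent.Lib.MP_938ce2_ag_u3

open Finset Module MonoidAlgebra
open Pool.Agent.Lib.MP_938ce2_ag_h67 (sg VV ev mkV Orb red kerM)
open Pool.Agent.Lib.MP_938ce2_ag_h60 (CMType)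
open Pool.Agent.Lib.MP_938ce2_ag_u2 (Act OddM badC mem_badC dM dE dH)

variable {G X : Type} [Group G] [Fintype G] [MulAction G X] [Fintype X] [DecidableEq X] {c : G}
  {g : ℕ} [MulAction.IsPretransitive G X]

open Pool.Agent.Lib.MP_938ce2_ag_h65u (ker_set mem_ker_set sv)

/-- point stabilizers act trivially -/
theorem stab_ker (hA : Act G X c g) (M : Submodule (MonoidAlgebra ℚ G) (VV ℚ G X))
    (heq : dH M = dM M) (τ : G) (x : X) (h : τ • x = x) : τ ∈ kerM M := by
  have hfin : Module.Finite ℚ M := Module.Finite.of_injective (M.subtype.restrictScalars ℚ)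
    Subtype.val_injective
  have h1 := MP_938ce2_ag_h67.finrank_range_add_le M τ x h
  have h2 : finrank ℚ (LinearMap.range (MP_938ce2_ag_h67.actL M τ - 1)) = 0 := by
    unfold dH dM at heq
    omega
  rw [Submodule.finrank_eq_zero, LinearMap.range_eq_bot] at h2
  rw [MP_938ce2_ag_u2.ThreeAAux.mem_kerM_iff]
  exact sub_eq_zero.mp h2

theorem reg_mod (hA : Act G X c g) (M : Submodule (MonoidAlgebra ℚ G) (VV ℚ G X))
    (hs : IsSimpleModule (MonoidAlgebra ℚ G) M) (hodd : OddM c M) (heq : dH M = dM M)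
    (hw : (Nat.card (Orb (kerM M) X) / 2).Coprime 6) :
    ∃ (P : Type) (_ : Group P) (_ : Fintype P) (_ : Module (MonoidAlgebra ℚ P) M)
      (_ : IsScalarTower ℚ (MonoidAlgebra ℚ P) M) (r : ℕ),
      (Fintype.card P).Coprime 6 ∧ IsSimpleModule (MonoidAlgebra ℚ P) M ∧
      finrank ℚ (M →ₗ[MonoidAlgebra ℚ P] M) = dE M ∧ 1 ≤ r ∧ g = r * Fintype.card P ∧
      (∀ σ : P, (∀ s : M, (MonoidAlgebra.single σ (1 : ℚ) : MonoidAlgebra ℚ P) • s = s) → σ = 1) ∧
      (badC c M).card ≤ (ker_set P M r).card := by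
  classical
  have hfin : Module.Finite ℚ M := Module.Finite.of_injective (M.subtype.restrictScalars ℚ)
    Subtype.val_injective
  have hnt : Nontrivial M := IsSimpleModule.nontrivial (MonoidAlgebra ℚ G) M
  have hm : 0 < dM M := Module.finrank_pos
  obtain ⟨P, hP6, hP, hcP⟩ := reg_grp hA (kerM M)
    (fun x k hk => MP_938ce2_ag_u2.c_free hA M hodd hm x k hk) (stab_ker hA M heq) hw
  obtain ⟨inst1, inst2, h, hsim, hend⟩ := reg_simple hA M hs hodd P hP
  have hFP : Fintype P := Fintype.ofFinite P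
  obtain ⟨r, hr, hg, hcard⟩ := fibre_c hA M hodd (stab_ker hA M heq) P hP hcP h
  refine ⟨P, inferInstance, hFP, inst1, inst2, r, ?_, hsim, hend, hr, hg, ?_, hcard⟩
  · rwa [← Nat.card_eq_fintype_card]
  · intro p hp
    obtain ⟨σ, hσ⟩ := QuotientGroup.mk_surjective (p : G ⧸ kerM M)
    have hk : σ ∈ kerM M := by
      rw [MP_938ce2_ag_h67.mem_kerM]
      intro s
      rw [← h σ p s hσ.symm]
      exact hp s
    apply Subtype.ext
    rw [← hσ]
    exact (QuotientGroup.eq_one_iff σ).mpr hk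

end Pool.Agent.Lib.MP_938ce2_ag_u3
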