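import Mathlib
import Pool.Agent.Lib.MP_938ce2_ag_u2.ThreeA
import Pool.Agent.Lib.MP_938ce2_ag_u3.Defs3

/-!
Row KerCount: the simple modules with a given kernel.
-/

set_option autoImplicit false
set_option linter.unusedSectionVars false

namespace Pool.Agent.Lib.MP_938ce2_ag_u3

open Finset Module MonoidAlgebra
open Pool.Agent.Lib.MP_938ce2_ag_h67 (sg VV ev mkV Orb red kerM)
open Pool.Agent.Lib.MP_938ce2_ag_h60 (CMType)
open Pool.Agent.Lib.MP_938ce2_ag_u2 (Act OddM badC mem_badC dM dE dH)

namespace KerCountAux

open Pool.Agent.Lib.MP_938ce2_ag_h67 (ev_ext ev_add ev_smul ev_zero ev_sum)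

/-- the dimension of a space of odd functions -/
theorem odd_dim {O W : Type} [Fintype O] [AddCommGroup W] [Module ℚ W] (γ : O → O)
    (hγ : ∀ a, γ (γ a) = a) (L : W →ₗ[ℚ] (O → ℚ)) (hL : Function.Injective L)
    (hodd : ∀ w a, L w (γ a) = - L w a) : 2 * finrank ℚ W ≤ Fintype.card O := by
  classical
  let e := Fintype.equivFin O
  let T : Finset O := Finset.univ.filter fun a => e a < e (γ a)
  have hT : ∀ a, a ∈ T ↔ e a < e (γ a) := fun a => by
    simp only [T, Finset.mem_filter, Finset.mem_univ, true_and]
  have h1 : finrank ℚ W ≤ T.card := by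
    let R : W →ₗ[ℚ] (T → ℚ) :=
      { toFun := fun w a => L w a.1
        map_add' := fun v w => by
          funext a
          rw [map_add]
          rfl
        map_smul' := fun t w => by
          funext a
          rw [map_smul]
          rfl }
    have hR : Function.Injective R := by
      rw [injective_iff_map_eq_zero]
      intro w hw
      apply hL
      rw [map_zero]
      have h0 : ∀ a ∈ T, L w a = 0 := fun a ha => congrFun hw ⟨a, ha⟩
      funext a
      rw [Pi.zero_apply]
      rcases lt_trichotomy (e a) (e (γ a)) with h | h | h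
      · exact h0 a ((hT a).mpr h)
      · have h2 : a = γ a := e.injective h
        have h3 := hodd w a
        rw [← h2] at h3
        linarith
      · have h2 : γ a ∈ T := by
          rw [hT, hγ]
          exact h
        have h3 := hodd w a
        rw [h0 _ h2] at h3
        linarith
    have h2 := LinearMap.finrank_le_finrank_of_injective hR
    rw [Module.finrank_fintype_fun_eq_card, Fintype.card_coe] at h2
    exact h2
  have h2 : T.card + (T.image γ).card ≤ Fintype.card O := by
    have hdisj : Disjoint T (T.image γ) := by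
      rw [Finset.disjoint_left]
      intro a ha hb
      obtain ⟨b, hb1, rfl⟩ := Finset.mem_image.mp hb
      rw [hT] at ha hb1
      rw [hγ] at ha
      exact lt_asymm ha hb1
    rw [← Finset.card_union_of_disjoint hdisj]
    exact Finset.card_le_univ _
  have h3 : (T.image γ).card = T.card := by
    apply Finset.card_image_of_injective
    intro a b hab
    rw [← hγ a, ← hγ b, hab]
  omega

end KerCountAux

variable {G X : Type} [Group G] [Fintype G] [MulAction G X] [Fintype X] [DecidableEq X] {c : G}
  {g : ℕ} [MulAction.IsPretransitive G X]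

namespace KerCountAux

open Pool.Agent.Lib.MP_938ce2_ag_h67 (ev_ext ev_add ev_smul ev_zero ev_sum)

/-- a space of odd functions which are constant on the orbits of a normal subgroup -/
theorem orb_dim (hA : Act G X c g) (K : Subgroup G) [K.Normal] {W : Type} [AddCommGroup W]
    [Module ℚ W] (L : W →ₗ[ℚ] VV ℚ G X) (hL : Function.Injective L)
    (hodd : ∀ w x, ev (L w) (c • x) = - ev (L w) x)
    (hK : ∀ w, ∀ k ∈ K, ∀ x, ev (L w) (k • x) = ev (L w) x) :
    2 * finrank ℚ W ≤ Nat.card (Orb K X) := by
  classical
  have hfin : Finite (Orb K X) := Finite.of_surjective _ (Orb.mk_surj K)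
  let _ : Fintype (Orb K X) := Fintype.ofFinite _
  rw [Nat.card_eq_fintype_card]
  let r : Orb K X → X := Function.surjInv (Orb.mk_surj K)
  have hr : ∀ a, Orb.mk K (r a) = a := Function.surjInv_eq (Orb.mk_surj K)
  let L' : W →ₗ[ℚ] (Orb K X → ℚ) :=
    { toFun := fun w a => ev (L w) (r a)
      map_add' := fun v w => by
        funext a
        rw [map_add, ev_add]
        rfl
      map_smul' := fun t w => by
        funext a
        rw [map_smul, ev_smul]
        rfl }
  have hL' : ∀ w x, L' w (Orb.mk K x) = ev (L w) x := by
    intro w x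
    obtain ⟨k, hk, hkx⟩ := (Orb.mk_eq K).mp (hr (Orb.mk K x)).symm
    have h := hK w k hk (r (Orb.mk K x))
    rw [hkx] at h
    exact h.symm
  refine odd_dim (fun a => c • a) ?_ L' ?_ ?_
  · intro a
    show c • c • a = a
    rw [smul_smul, hA.sq, one_smul]
  · rw [injective_iff_map_eq_zero]
    intro w hw
    apply hL
    rw [map_zero]
    apply ev_ext
    intro x
    rw [← hL', hw, ev_zero]
    rfl
  · intro w a
    obtain ⟨x, rfl⟩ := Orb.mk_surj K a
    show L' w (c • Orb.mk K x) = _
    rw [Orb.smul_mk, hL', hL', hodd]

/-- pairwise non isomorphic simple submodules are independent -/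
theorem indep {R V J : Type} [Ring R] [AddCommGroup V] [Module R V]
    (S : J → Submodule R V) (hS : ∀ i, IsSimpleModule R (S i))
    (hinj : ∀ i j, Nonempty (S i ≃ₗ[R] S j) → i = j) : iSupIndep S := by
  have h1 : iSupIndep (fun c : isotypicComponents R V => (c : Submodule R V)) :=
    (sSupIndep_iff (isotypicComponents R V)).mp (sSupIndep_isotypicComponents R V)
  let C : J → isotypicComponents R V := fun j => ⟨isotypicComponent R V (S j), S j, hS j, rfl⟩
  have hC : Function.Injective C := by
    intro i j hij
    apply hinj
    have h2 : isotypicComponent R V (S i) = isotypicComponent R V (S j) :=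
      congrArg Subtype.val hij
    have h3 : S i ≤ isotypicComponent R V (S j) := by
      rw [← h2]
      exact (S i).le_isotypicComponent
    have := hS i
    have := hS j
    exact isIsotypicOfType_submodule_iff.mp (IsIsotypicOfType.isotypicComponent R V (S j)) (S i) h3
  have h4 : iSupIndep (fun j => (C j : Submodule R V)) := h1.comp hC
  exact h4.mono (fun j => (S j).le_isotypicComponent)

end KerCountAux

open KerCountAux

open Pool.Agent.Lib.MP_938ce2_ag_h67 (ev_ext ev_add ev_smul ev_zero ev_sum)

/-- a simple odd module lives on the orbits of its kernel -/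
theorem dM_le_orb (hA : Act G X c g) (M : Submodule (MonoidAlgebra ℚ G) (VV ℚ G X))
    (hodd : OddM c M) : 2 * dM M ≤ Nat.card (Orb (kerM M) X) := by
  refine orb_dim hA (kerM M) (M.subtype.restrictScalars ℚ) Subtype.val_injective ?_ ?_
  · intro w x
    exact hodd w.1 w.2 x
  · intro w k hk x
    exact Pool.Agent.Lib.MP_938ce2_ag_u2.ThreeAAux.ev_kerM M hk w x

theorem ker_count (hA : Act G X c g) {ι : Type} [Fintype ι]
    (S : ι → Submodule (MonoidAlgebra ℚ G) (VV ℚ G X))
    (hS : ∀ i, IsSimpleModule (MonoidAlgebra ℚ G) (S i)) (hodd : ∀ i, OddM c (S i))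
    (hinj : ∀ i j, Nonempty (S i ≃ₗ[MonoidAlgebra ℚ G] S j) → i = j) (K : Subgroup G) :
    2 * Nat.card {i // kerM (S i) = K} ≤ Nat.card (Orb K X) := by
  classical
  by_cases hne : Nonempty {i // kerM (S i) = K}
  · obtain ⟨i₀, hi₀⟩ := hne
    have hN : K.Normal := by
      rw [← hi₀]
      infer_instance
    have hfinS : ∀ i, Module.Finite ℚ (S i) := fun i =>
      Module.Finite.of_injective ((S i).subtype.restrictScalars ℚ) Subtype.val_injective
    have hind : iSupIndep (fun j : {i // kerM (S i) = K} => S j.1) :=
      indep (fun j : {i // kerM (S i) = K} => S j.1) (fun j => hS j.1)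
        (fun i j h => Subtype.ext (hinj _ _ h))
    have hinj2 := hind.dfinsupp_lsum_injective
    let L : (∀ j : {i // kerM (S i) = K}, S j.1) →ₗ[ℚ] VV ℚ G X :=
      { toFun := fun f => ∑ j, (f j : VV ℚ G X)
        map_add' := by
          intro f g
          rw [← Finset.sum_add_distrib]
          rfl
        map_smul' := by
          intro a f
          rw [RingHom.id_apply, Finset.smul_sum]
          rfl }
    have hL : Function.Injective L := by
      intro f g hfg
      have h1 : ∀ f : (∀ j : {i // kerM (S i) = K}, S j.1), L f = DFinsupp.lsum ℕ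
          (fun j : {i // kerM (S i) = K} => (S j.1).subtype)
          (DFinsupp.equivFunOnFintype.symm f) := by
        intro f
        rw [DFinsupp.lsum_apply_apply, DFinsupp.sumAddHom_apply, DFinsupp.sum_eq_sum_fintype]
        · rfl
        · intro i
          exact map_zero _
      rw [h1, h1] at hfg
      exact DFinsupp.equivFunOnFintype.symm.injective (hinj2 hfg)
    have hev : ∀ f x, ev (L f) x = ∑ j, ev (f j : VV ℚ G X) x := fun f x => ev_sum _ _ _
    have h2 := orb_dim hA K L hL (by
      intro f x
      rw [hev, hev, ← Finset.sum_neg_distrib]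
      exact Finset.sum_congr rfl fun j _ => hodd j.1 _ (f j).2 x) (by
      intro f k hk x
      rw [hev, hev]
      refine Finset.sum_congr rfl fun j _ => ?_
      have hk' : k ∈ kerM (S j.1) := by
        rw [j.2]
        exact hk
      exact Pool.Agent.Lib.MP_938ce2_ag_u2.ThreeAAux.ev_kerM (S j.1) hk' (f j) x)
    rw [Module.finrank_pi_fintype] at h2
    have h3 : Nat.card {i // kerM (S i) = K} ≤
        ∑ j : {i // kerM (S i) = K}, finrank ℚ (S j.1) := by
      rw [Nat.card_eq_fintype_card, ← Finset.card_univ, Finset.card_eq_sum_ones]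
      refine Finset.sum_le_sum fun j _ => ?_
      have := hS j.1
      have h4 : Nontrivial (S j.1) := IsSimpleModule.nontrivial (MonoidAlgebra ℚ G) (S j.1)
      exact Module.finrank_pos
    omega
  · rw [not_nonempty_iff] at hne
    rw [Nat.card_of_isEmpty]
    omega

end Pool.Agent.Lib.MP_938ce2_ag_u3
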