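import Mathlib
import Pool.Agent.Lib.MP_938ce2_ag_u2.NumPrime

/-!
Row NumP: the bound for one exceptional type.
-/

set_option autoImplicit false

namespace Pool.Agent.Lib.MP_938ce2_ag_u3

open Filter

private theorem numP_ev (ε Y₀ : ℝ) (hε : 0 < ε) : ∃ g₀ : ℕ, ∀ g : ℕ, g₀ ≤ g → (1 : ℝ) ≤ g ∧
    Y₀ ≤ (g : ℝ) ^ (7 / 20 : ℝ) ∧ 8 / ε ≤ (g : ℝ) ^ (1 / 10 : ℝ) ∧
    ((g : ℝ) ^ (1 / 20 : ℝ)) ^ 12 / ε * Real.exp (-(2 * ε * (g : ℝ) ^ (1 / 20 : ℝ))) ≤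
      Real.log 2 ∧ 2 ≤ (g : ℝ) ^ (7 / 25 : ℝ) ∧ 4 / ε ≤ (g : ℝ) ^ (3 / 100 : ℝ) := by
  have hc : Tendsto (fun g : ℕ => (g : ℝ)) atTop atTop := tendsto_natCast_atTop_atTop
  have hr : ∀ s : ℝ, 0 < s → Tendsto (fun g : ℕ => (g : ℝ) ^ s) atTop atTop := fun s hs =>
    (tendsto_rpow_atTop hs).comp hc
  have h3 : Tendsto (fun g : ℕ => 2 * ε * (g : ℝ) ^ (1 / 20 : ℝ)) atTop atTop :=
    (hr _ (by norm_num)).const_mul_atTop (by positivity)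
  have h4 := (Real.tendsto_pow_mul_exp_neg_atTop_nhds_zero 12).comp h3
  have hpos : 0 < (2 * ε) ^ 12 * ε * Real.log 2 := by
    have := Real.log_pos (one_lt_two)
    positivity
  have h5 := h4.eventually (gt_mem_nhds hpos)
  have hall := ((((((hc.eventually_ge_atTop 1).and
    ((hr (7 / 20) (by norm_num)).eventually_ge_atTop Y₀)).and
    ((hr (1 / 10) (by norm_num)).eventually_ge_atTop (8 / ε))).and h5).and
    ((hr (7 / 25) (by norm_num)).eventually_ge_atTop 2)).and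
    ((hr (3 / 100) (by norm_num)).eventually_ge_atTop (4 / ε)))
  obtain ⟨g₀, hg₀⟩ := eventually_atTop.1 hall
  refine ⟨g₀, fun g hg => ?_⟩
  obtain ⟨⟨⟨⟨⟨a1, a2⟩, a3⟩, a4⟩, a5⟩, a6⟩ := hg₀ g hg
  refine ⟨a1, a2, a3, ?_, a5, a6⟩
  simp only [Function.comp_apply, mul_pow] at a4
  set y := (g : ℝ) ^ (1 / 20 : ℝ) with hy
  have h2e : 0 < (2 : ℝ) ^ 12 * ε ^ 12 := by positivity
  have h6 : 2 ^ 12 * ε ^ 12 * (y ^ 12 * Real.exp (-(2 * ε * y))) <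
      2 ^ 12 * ε ^ 12 * (ε * Real.log 2) := by
    calc 2 ^ 12 * ε ^ 12 * (y ^ 12 * Real.exp (-(2 * ε * y)))
        = 2 ^ 12 * ε ^ 12 * y ^ 12 * Real.exp (-(2 * ε * y)) := by ring
      _ < 2 ^ 12 * ε ^ 12 * ε * Real.log 2 := a4
      _ = _ := by ring
  have h7 := lt_of_mul_lt_mul_left h6 h2e.le
  rw [div_mul_eq_mul_div, div_le_iff₀ hε]
  linarith

theorem num_P : ∀ ε : ℝ, 0 < ε → ∃ g₀ : ℕ, ∀ (g m e o b : ℕ) (N : ℝ), g₀ ≤ g → 1 ≤ m → m ≤ b →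
    1 ≤ o → o ≤ 2 * b → 1 ≤ e → N ≤ 1 →
    (∀ q : ℕ, q.Prime → q ≠ 2 → ¬ q ∣ o →
      N ≤ (1 + ((q : ℝ) - 1) * Real.exp (-(2 * g / (m * (q : ℝ) ^ 2)))) ^ m / ((q : ℝ) - 1) ^ e) →
    N ≤ ε * b / (g : ℝ) ^ (1 / 4 : ℝ) := by
  intro ε hε
  obtain ⟨Y₀, hY₀⟩ := Pool.Agent.Lib.MP_938ce2_ag_u2.exists_prime_not_dvd
  obtain ⟨g₀, hg₀⟩ := numP_ev ε Y₀ hε
  refine ⟨g₀, ?_⟩
  intro g m e o b N hg hm hmb ho hob he hN1 hN
  obtain ⟨g1, g2, g3, g4, g5, g6⟩ := hg₀ g hg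
  have hgpos : (0 : ℝ) < g := by linarith
  have hq4 : 0 < (g : ℝ) ^ (1 / 4 : ℝ) := Real.rpow_pos_of_pos hgpos _
  have hb1 : (1 : ℝ) ≤ b := by exact_mod_cast hm.trans hmb
  by_cases hcase : (g : ℝ) ^ (1 / 4 : ℝ) ≤ ε * b
  · refine hN1.trans ?_
    rw [le_div_iff₀ hq4, one_mul]
    exact hcase
  push Not at hcase
  have hb : (b : ℝ) ≤ (g : ℝ) ^ (1 / 4 : ℝ) / ε := by
    rw [le_div_iff₀ hε]
    linarith
  have ho0 : (0 : ℝ) < o := by exact_mod_cast ho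
  -- the logarithm of o
  have hlog : Real.log o ≤ (g : ℝ) ^ (7 / 20 : ℝ) / 4 := by
    have e1 : (g : ℝ) ^ (7 / 20 : ℝ) = (g : ℝ) ^ (1 / 4 : ℝ) * (g : ℝ) ^ (1 / 10 : ℝ) := by
      rw [← Real.rpow_add hgpos]
      norm_num
    have h1 : Real.log o ≤ o := by
      have := Real.log_le_sub_one_of_pos ho0
      linarith
    have h2 : (o : ℝ) ≤ 2 * b := by exact_mod_cast hob
    calc Real.log o ≤ 2 * b := h1.trans h2
      _ ≤ 2 * ((g : ℝ) ^ (1 / 4 : ℝ) / ε) := by linarith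
      _ = (g : ℝ) ^ (1 / 4 : ℝ) * (8 / ε) / 4 := by ring
      _ ≤ (g : ℝ) ^ (1 / 4 : ℝ) * (g : ℝ) ^ (1 / 10 : ℝ) / 4 := by gcongr
      _ = _ := by rw [e1]
  obtain ⟨q, hq, hq2, hqlo, hqhi, hqo⟩ := hY₀ _ g2 o ho hlog
  have hqlo' : (g : ℝ) ^ (7 / 25 : ℝ) ≤ q := by
    rw [← Real.rpow_mul hgpos.le] at hqlo
    norm_num at hqlo
    exact hqlo
  have hmain := hN q hq hq2 hqo
  set y : ℝ := (g : ℝ) ^ (1 / 20 : ℝ) with hy
  have hy0 : 0 < y := Real.rpow_pos_of_pos hgpos _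
  have ypow : ∀ k : ℕ, y ^ k = (g : ℝ) ^ ((k : ℝ) / 20) := by
    intro k
    rw [hy, ← Real.rpow_natCast, ← Real.rpow_mul hgpos.le]
    congr 1
    ring
  have y5 : (g : ℝ) ^ (1 / 4 : ℝ) = y ^ 5 := by
    rw [ypow]
    norm_num
  have y7 : (g : ℝ) ^ (7 / 20 : ℝ) = y ^ 7 := by
    rw [ypow]
    norm_num
  have y20 : (g : ℝ) = y ^ 20 := by
    rw [ypow]
    norm_num
  have hm1 : (1 : ℝ) ≤ m := by exact_mod_cast hm
  have hmb' : (m : ℝ) ≤ y ^ 5 / ε := by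
    rw [← y5]
    exact (Nat.cast_le.2 hmb).trans hb
  have hqy : (q : ℝ) ≤ y ^ 7 := by
    rw [← y7]
    exact hqhi
  have hq3 : (2 : ℝ) ≤ q := by exact_mod_cast hq.two_le
  have hq1 : (0 : ℝ) < (q : ℝ) - 1 := by linarith
  -- the exponent
  have hexp : 2 * ε * y ≤ 2 * g / (m * (q : ℝ) ^ 2) := by
    have hmq : 0 < (m : ℝ) * (q : ℝ) ^ 2 := by positivity
    rw [le_div_iff₀ hmq]
    have h1 : (m : ℝ) * (q : ℝ) ^ 2 ≤ y ^ 5 / ε * (y ^ 7) ^ 2 := by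
      gcongr
    calc 2 * ε * y * (m * (q : ℝ) ^ 2) ≤ 2 * ε * y * (y ^ 5 / ε * (y ^ 7) ^ 2) := by gcongr
      _ = 2 * y ^ 20 := by field_simp
      _ = 2 * g := by rw [← y20]
  have hE : Real.exp (-(2 * g / (m * (q : ℝ) ^ 2))) ≤ Real.exp (-(2 * ε * y)) :=
    Real.exp_le_exp.2 (by linarith)
  have hE0 : 0 < Real.exp (-(2 * g / (m * (q : ℝ) ^ 2))) := Real.exp_pos _
  have hnum : (1 + ((q : ℝ) - 1) * Real.exp (-(2 * g / (m * (q : ℝ) ^ 2)))) ^ m ≤ 2 := by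
    calc (1 + ((q : ℝ) - 1) * Real.exp (-(2 * g / (m * (q : ℝ) ^ 2)))) ^ m
        ≤ (Real.exp (((q : ℝ) - 1) * Real.exp (-(2 * g / (m * (q : ℝ) ^ 2))))) ^ m := by
          apply pow_le_pow_left₀
          · positivity
          · rw [add_comm]
            exact Real.add_one_le_exp _
      _ = Real.exp (m * (((q : ℝ) - 1) * Real.exp (-(2 * g / (m * (q : ℝ) ^ 2))))) := by
          rw [← Real.exp_nat_mul]
      _ ≤ Real.exp (Real.log 2) := by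
          apply Real.exp_le_exp.2
          refine le_trans ?_ g4
          calc (m : ℝ) * (((q : ℝ) - 1) * Real.exp (-(2 * g / (m * (q : ℝ) ^ 2))))
              ≤ y ^ 5 / ε * (y ^ 7 * Real.exp (-(2 * ε * y))) := by
                gcongr
                linarith
            _ = y ^ 12 / ε * Real.exp (-(2 * ε * y)) := by ring
      _ = 2 := Real.exp_log (by norm_num)
  have hden : (q : ℝ) - 1 ≤ ((q : ℝ) - 1) ^ e := by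
    calc (q : ℝ) - 1 = ((q : ℝ) - 1) ^ 1 := by rw [pow_one]
      _ ≤ ((q : ℝ) - 1) ^ e := pow_le_pow_right₀ (by linarith) he
  have hfin : N ≤ 2 / ((q : ℝ) - 1) := by
    refine hmain.trans ?_
    gcongr
  refine hfin.trans ?_
  have h28 : (g : ℝ) ^ (7 / 25 : ℝ) = (g : ℝ) ^ (1 / 4 : ℝ) * (g : ℝ) ^ (3 / 100 : ℝ) := by
    rw [← Real.rpow_add hgpos]
    norm_num
  have h1 : (g : ℝ) ^ (7 / 25 : ℝ) / 2 ≤ (q : ℝ) - 1 := by linarith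
  have h2 : 0 < (g : ℝ) ^ (7 / 25 : ℝ) := Real.rpow_pos_of_pos hgpos _
  calc 2 / ((q : ℝ) - 1) ≤ 2 / ((g : ℝ) ^ (7 / 25 : ℝ) / 2) := by gcongr
    _ = 4 / (g : ℝ) ^ (7 / 25 : ℝ) := by field_simp; norm_num
    _ ≤ ε / (g : ℝ) ^ (1 / 4 : ℝ) := by
        rw [div_le_div_iff₀ h2 hq4, h28]
        rw [div_le_iff₀ hε] at g6
        nlinarith
    _ ≤ ε * b / (g : ℝ) ^ (1 / 4 : ℝ) := by
        gcongr
        nlinarith

end Pool.Agent.Lib.MP_938ce2_ag_u3
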