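import Mathlib
import Pool.Agent.Lib.MP_938ce2_ag_u2.Deg
import Pool.Agent.Lib.MP_938ce2_ag_u3.Defs3

/-!
Row OddNum: the isotypic numbers of the space of odd functions.
-/

set_option autoImplicit false
set_option linter.unusedSectionVars false

namespace Pool.Agent.Lib.MP_938ce2_ag_u3

open Finset Module MonoidAlgebra
open Pool.Agent.Lib.MP_938ce2_ag_h67 (sg VV ev mkV Orb red kerM)
open Pool.Agent.Lib.MP_938ce2_ag_h60 (CMType)
open Pool.Agent.Lib.MP_938ce2_ag_u2 (Act OddM badC mem_badC dM dE dH)

namespace OddNumAux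

open Pool.Agent.Lib.MP_938ce2_ag_h67 (ev_ext ev_add ev_smul ev_zero ev_sum ev_single
  finrank_hom_congr)
open Pool.Agent.Lib.MP_938ce2_ag_h85d (finite_hom finrank_hom_fun finrank_fun
  finrank_hom_component sum_finrank_le)

/-- the isotypic components of a semisimple module, with pairwise non isomorphic
representatives -/
theorem isotypic_numbers' {K R V : Type} [Field K] [Ring R] [Algebra K R] [AddCommGroup V]
    [Module K V] [Module R V] [IsScalarTower K R V] [Module.Finite K V] [IsSemisimpleModule R V] :
    ∃ (ι : Type) (_ : Fintype ι) (S : ι → Submodule R V) (k : ι → ℕ),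
      (∀ i, IsSimpleModule R (S i)) ∧
      (∀ M : Submodule R V, IsSimpleModule R M → ∃ i, Nonempty (M ≃ₗ[R] S i)) ∧
      (∀ i j, Nonempty (S i ≃ₗ[R] S j) → i = j) ∧
      (∀ i, 1 ≤ k i) ∧
      (∀ i, finrank K (S i →ₗ[R] V) = k i * finrank K (S i →ₗ[R] S i)) ∧
      (∑ i, k i * finrank K (S i) ≤ finrank K V) := by
  classical
  have : IsNoetherian R V := isNoetherian_of_tower K inferInstance
  have : Fintype (isotypicComponents R V) := Fintype.ofFinite _
  choose S hS using fun c : isotypicComponents R V => c.2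
  have hsim : ∀ c, IsSimpleModule R (S c) := fun c => (hS c).1
  have hk : ∀ c : isotypicComponents R V, ∃ k : ℕ,
      Nonempty ((c : Submodule R V) ≃ₗ[R] (Fin k → S c)) := by
    intro c
    have h1 : IsIsotypicOfType R (c : Submodule R V) (S c) := by
      have := IsIsotypicOfType.isotypicComponent R V (S c)
      rw [← (hS c).2] at this
      exact this
    exact h1.linearEquiv_fun
  choose k hk using hk
  refine ⟨isotypicComponents R V, inferInstance, S, k, hsim, ?_, ?_, ?_, ?_, ?_⟩
  · intro M hM
    let c : isotypicComponents R V := ⟨isotypicComponent R V M, M, hM, rfl⟩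
    refine ⟨c, ?_⟩
    have h1 : M ≤ isotypicComponent R V (S c) := by
      rw [← (hS c).2]
      exact M.le_isotypicComponent
    exact isIsotypicOfType_submodule_iff.mp (IsIsotypicOfType.isotypicComponent R V (S c)) M h1
  · rintro c d ⟨e⟩
    apply Subtype.ext
    rw [(hS c).2, (hS d).2]
    exact e.isotypicComponent_eq
  · intro c
    obtain ⟨e⟩ := hk c
    by_contra h
    have h0 : k c = 0 := by omega
    have : Nontrivial (c : Submodule R V) := inferInstance
    have : IsEmpty (Fin (k c)) := by rw [h0]; infer_instance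
    exact not_subsingleton _ (e.toEquiv.subsingleton)
  · intro c
    obtain ⟨e⟩ := hk c
    have : Module.Finite K (S c) := Module.Finite.of_injective ((S c).subtype.restrictScalars K)
      Subtype.val_injective
    rw [finrank_hom_component (S c)]
    have h1 := (hS c).2
    have e' : (isotypicComponent R V (S c)) ≃ₗ[R] (Fin (k c) → S c) :=
      (LinearEquiv.ofEq _ _ h1.symm).trans e
    exact finrank_hom_fun (k c) e'
  · have h1 : ∀ c : isotypicComponents R V,
        finrank K (c : Submodule R V) = k c * finrank K (S c) := by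
      intro c
      obtain ⟨e⟩ := hk c
      exact finrank_fun (k c) e
    have h2 : iSupIndep (fun c : isotypicComponents R V => (c : Submodule R V)) :=
      (sSupIndep_iff (isotypicComponents R V)).mp (sSupIndep_isotypicComponents R V)
    calc ∑ c, k c * finrank K (S c) = ∑ c : isotypicComponents R V,
        finrank K (c : Submodule R V) := Finset.sum_congr rfl fun c _ => (h1 c).symm
      _ ≤ finrank K V := sum_finrank_le _ h2

/-- the isotypic numbers of a submodule which contains the images of its submodules -/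
theorem sub_numbers {K R V : Type} [Field K] [Ring R] [Algebra K R] [AddCommGroup V]
    [Module K V] [Module R V] [IsScalarTower K R V] [Module.Finite K V] [IsSemisimpleModule R V]
    (W : Submodule R V)
    (hW : ∀ (S : Submodule R V), S ≤ W → ∀ (φ : S →ₗ[R] V) (s : S), φ s ∈ W) :
    ∃ (ι : Type) (_ : Fintype ι) (S : ι → Submodule R V) (k : ι → ℕ),
      (∀ i, IsSimpleModule R (S i)) ∧ (∀ i, S i ≤ W) ∧
      (∀ M : Submodule R V, IsSimpleModule R M → M ≤ W → ∃ i, Nonempty (M ≃ₗ[R] S i)) ∧
      (∀ i j, Nonempty (S i ≃ₗ[R] S j) → i = j) ∧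
      (∀ i, 1 ≤ k i) ∧
      (∀ i, finrank K (S i →ₗ[R] V) = k i * finrank K (S i →ₗ[R] S i)) ∧
      (∑ i, k i * finrank K (S i) ≤ finrank K W) := by
  have hfin : Module.Finite K W := Module.Finite.of_injective
    (W.subtype.restrictScalars K) Subtype.val_injective
  obtain ⟨ι, hι, S, k, hS, hM, hinj, hk, hH, hsum⟩ :=
    isotypic_numbers' (K := K) (R := R) (V := W)
  let e : ∀ i, S i ≃ₗ[R] (S i).map W.subtype := fun i =>
    Submodule.equivMapOfInjective W.subtype Subtype.val_injective (S i)
  have hle : ∀ i, (S i).map W.subtype ≤ W := by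
    rintro i _ ⟨v, hv, rfl⟩
    exact v.2
  refine ⟨ι, hι, fun i => (S i).map W.subtype, k, ?_, hle, ?_, ?_, hk, ?_, ?_⟩
  · intro i
    have := hS i
    exact IsSimpleModule.congr (e i).symm
  · intro M hMs hMo
    let e1 : (M.comap W.subtype) ≃ₗ[R] M := Submodule.comapSubtypeEquivOfLe hMo
    have hs1 : IsSimpleModule R (M.comap W.subtype) := IsSimpleModule.congr e1
    obtain ⟨i, ⟨f⟩⟩ := hM _ hs1
    exact ⟨i, ⟨(e1.symm.trans f).trans (e i)⟩⟩
  · rintro i j ⟨f⟩
    exact hinj i j ⟨((e i).trans f).trans (e j).symm⟩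
  · intro i
    have h2 : finrank K ((S i).map W.subtype →ₗ[R] (S i).map W.subtype)
        = finrank K (S i →ₗ[R] S i) := (finrank_hom_congr (e i) (e i)).symm
    have h3 : finrank K ((S i).map W.subtype →ₗ[R] W) = finrank K (S i →ₗ[R] W) :=
      (finrank_hom_congr (e i) (LinearEquiv.refl R W)).symm
    let F : ((S i).map W.subtype →ₗ[R] V) ≃ₗ[K] ((S i).map W.subtype →ₗ[R] W) :=
      { toFun := fun φ => LinearMap.codRestrict _ φ (hW _ (hle i) φ)
        invFun := fun ψ => W.subtype.comp ψ
        map_add' := fun φ ψ => rfl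
        map_smul' := fun a φ => rfl
        left_inv := fun φ => rfl
        right_inv := fun ψ => rfl }
    show finrank K ((S i).map W.subtype →ₗ[R] V) = k i *
      finrank K ((S i).map W.subtype →ₗ[R] (S i).map W.subtype)
    rw [F.finrank_eq, h2, h3, hH]
  · refine le_trans (le_of_eq ?_) hsum
    refine Finset.sum_congr rfl fun i _ => ?_
    congr 1
    exact ((e i).restrictScalars K).finrank_eq.symm

/-- the dimension of a space of odd functions -/
theorem odd_dim {O W : Type} [Fintype O] [AddCommGroup W] [Module ℚ W] (γ : O → O)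
    (hγ : ∀ a, γ (γ a) = a) (L : W →ₗ[ℚ] (O → ℚ)) (hL : Function.Injective L)
    (hodd : ∀ w a, L w (γ a) = - L w a) : 2 * finrank ℚ W ≤ Fintype.card O := by
  classical
  let e := Fintype.equivFin O
  let T : Finset O := Finset.univ.filter fun a => e a < e (γ a)
  have hT : ∀ a, a ∈ T ↔ e a < e (γ a) := fun a => by
    simp only [T, Finset.mem_filter, Finset.mem_univ, true_and]
  have h1 : finrank ℚ W ≤ T.card := by
    let R : W →ₗ[ℚ] (T → ℚ) :=
      { toFun := fun w a => L w a.1
        map_add' := fun v w => by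
          funext a
          rw [map_add]
          rfl
        map_smul' := fun t w => by
          funext a
          rw [map_smul]
          rfl }
    have hR : Function.Injective R := by
      rw [injective_iff_map_eq_zero]
      intro w hw
      apply hL
      rw [map_zero]
      have h0 : ∀ a ∈ T, L w a = 0 := fun a ha => congrFun hw ⟨a, ha⟩
      funext a
      rw [Pi.zero_apply]
      rcases lt_trichotomy (e a) (e (γ a)) with h | h | h
      · exact h0 a ((hT a).mpr h)
      · have h2 : a = γ a := e.injective h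
        have h3 := hodd w a
        rw [← h2] at h3
        linarith
      · have h2 : γ a ∈ T := by
          rw [hT, hγ]
          exact h
        have h3 := hodd w a
        rw [h0 _ h2] at h3
        linarith
    have h2 := LinearMap.finrank_le_finrank_of_injective hR
    rw [Module.finrank_fintype_fun_eq_card, Fintype.card_coe] at h2
    exact h2
  have h2 : T.card + (T.image γ).card ≤ Fintype.card O := by
    have hdisj : Disjoint T (T.image γ) := by
      rw [Finset.disjoint_left]
      intro a ha hb
      obtain ⟨b, hb1, rfl⟩ := Finset.mem_image.mp hb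
      rw [hT] at ha hb1
      rw [hγ] at ha
      exact lt_asymm ha hb1
    rw [← Finset.card_union_of_disjoint hdisj]
    exact Finset.card_le_univ _
  have h3 : (T.image γ).card = T.card := by
    apply Finset.card_image_of_injective
    intro a b hab
    rw [← hγ a, ← hγ b, hab]
  omega

end OddNumAux

variable {G X : Type} [Group G] [Fintype G] [MulAction G X] [Fintype X] [DecidableEq X] {c : G}
  {g : ℕ} [MulAction.IsPretransitive G X]

namespace OddNumAux

open Pool.Agent.Lib.MP_938ce2_ag_h67 (ev_ext ev_add ev_smul ev_zero ev_sum ev_single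
  finrank_hom_congr)

/-- the submodule of odd functions -/
def oddS (hA : Act G X c g) : Submodule (MonoidAlgebra ℚ G) (VV ℚ G X) where
  carrier := {v | ∀ x, ev v (c • x) = - ev v x}
  add_mem' := by
    intro v w hv hw x
    rw [ev_add, ev_add, hv x, hw x, neg_add]
  zero_mem' := by
    intro x
    rw [ev_zero, ev_zero, neg_zero]
  smul_mem' := by
    intro r v hv
    induction r using MonoidAlgebra.induction_linear with
    | zero =>
      intro x
      rw [zero_smul, ev_zero, ev_zero, neg_zero]
    | add a b ha hb =>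
      intro x
      rw [add_smul, ev_add, ev_add, ha x, hb x, neg_add]
    | single σ a =>
      intro x
      rw [ev_single, ev_single, smul_smul, ← hA.comm, ← smul_smul, hv, mul_neg]

theorem mem_oddS (hA : Act G X c g) (v : VV ℚ G X) :
    v ∈ oddS hA ↔ ∀ x, ev v (c • x) = - ev v x := Iff.rfl

theorem finrank_oddS (hA : Act G X c g) : finrank ℚ (oddS hA) ≤ g := by
  have h := odd_dim (O := X) (W := oddS hA) (fun x => c • x)
    (fun x => by rw [smul_smul, hA.sq, one_smul])
    { toFun := fun w x => ev (w : VV ℚ G X) x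
      map_add' := fun v w => rfl
      map_smul' := fun t w => rfl } (by
        intro v w h
        apply Subtype.ext
        apply ev_ext
        intro x
        exact congrFun h x)
    (fun w x => w.2 x)
  rw [hA.card] at h
  omega

/-- homomorphisms from an odd module have odd values -/
theorem hom_odd (hA : Act G X c g) (S : Submodule (MonoidAlgebra ℚ G) (VV ℚ G X))
    (hS : S ≤ oddS hA) (φ : S →ₗ[MonoidAlgebra ℚ G] VV ℚ G X) (s : S) : φ s ∈ oddS hA := by
  rw [mem_oddS]
  intro x
  have h1 : MonoidAlgebra.single c⁻¹ (1 : ℚ) • s = - s := by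
    apply Subtype.ext
    apply ev_ext
    intro y
    change ev (MonoidAlgebra.single c⁻¹ (1 : ℚ) • (s : VV ℚ G X)) y = - ev (s : VV ℚ G X) y
    rw [ev_single, one_mul, inv_inv]
    exact hS s.2 y
  have h2 : MonoidAlgebra.single c⁻¹ (1 : ℚ) • φ s = - φ s := by
    rw [← LinearMap.map_smul, h1]
    exact LinearMap.map_neg φ s
  have h4 := congrArg (fun t => ev t x) h2
  simp only [ev_single, one_mul, inv_inv] at h4
  exact h4

end OddNumAux

open OddNumAux
open Pool.Agent.Lib.MP_938ce2_ag_h67 (finrank_hom_congr)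

theorem odd_numbers (hA : Act G X c g) :
    ∃ (ι : Type) (_ : Fintype ι) (S : ι → Submodule (MonoidAlgebra ℚ G) (VV ℚ G X)) (k : ι → ℕ),
      (∀ i, IsSimpleModule (MonoidAlgebra ℚ G) (S i)) ∧ (∀ i, OddM c (S i)) ∧
      (∀ M : Submodule (MonoidAlgebra ℚ G) (VV ℚ G X), IsSimpleModule (MonoidAlgebra ℚ G) M →
        OddM c M → ∃ i, Nonempty (M ≃ₗ[MonoidAlgebra ℚ G] S i)) ∧
      (∀ i j, Nonempty (S i ≃ₗ[MonoidAlgebra ℚ G] S j) → i = j) ∧
      (∀ i, 1 ≤ k i) ∧ (∀ i, dH (S i) = k i * dE (S i)) ∧ ∑ i, k i * dM (S i) ≤ g := by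
  have hne : NeZero (Nat.card G : ℚ) := ⟨by exact_mod_cast Nat.card_pos.ne'⟩
  obtain ⟨ι, hι, S, k, hS, hle, hM, hinj, hk, hH, hsum⟩ :=
    sub_numbers (K := ℚ) (R := MonoidAlgebra ℚ G) (V := VV ℚ G X) (oddS hA) (hom_odd hA)
  exact ⟨ι, hι, S, k, hS, fun i v hv x => hle i hv x,
    fun M hMs hMo => hM M hMs (fun v hv x => hMo v hv x), hinj, hk, hH,
    hsum.trans (finrank_oddS hA)⟩

end Pool.Agent.Lib.MP_938ce2_ag_u3
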