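import Mathlib
import Pool.Agent.Lib.MP_938ce2_ag_h65u.Mink

/-!
Row MinkS: the order of a group of order prime to `3` with a faithful simple module.
-/

set_option autoImplicit false
set_option linter.unusedSectionVars false

namespace Pool.Agent.Lib.MP_938ce2_ag_u3

open Finset Module
open Pool.Agent.Lib.MP_938ce2_ag_h67 (VV mkV ev ev_ext ev_single ev_mkV ev_add ev_smul kerM mem_kerM)

theorem card_le_mink (P : Type) [Group P] [Fintype P] (h3 : ¬ 3 ∣ Fintype.card P) (S : Type)
    [AddCommGroup S] [Module ℚ S] [Module (MonoidAlgebra ℚ P) S]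
    [IsScalarTower ℚ (MonoidAlgebra ℚ P) S] [Module.Finite ℚ S]
    [IsSimpleModule (MonoidAlgebra ℚ P) S]
    (hf : ∀ σ : P, (∀ s : S, MonoidAlgebra.single σ (1 : ℚ) • s = s) → σ = 1) :
    Fintype.card P ≤ 3 ^ (finrank ℚ S * finrank ℚ S) := by
  classical
  have h3' : Fact (Nat.Prime 3) := ⟨Nat.prime_three⟩
  have hne : Nontrivial S := IsSimpleModule.nontrivial (MonoidAlgebra ℚ P) S
  obtain ⟨s0, hs0⟩ := exists_ne (0 : S)
  obtain ⟨l, hl⟩ : ∃ l : S →ₗ[ℚ] ℚ, l s0 ≠ 0 := by
    by_contra hcon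
    push Not at hcon
    exact hs0 ((Module.forall_dual_apply_eq_zero_iff ℚ s0).1 hcon)
  let psi0 : S →ₗ[ℚ] VV ℚ P P :=
    { toFun := fun s => mkV P (fun x => l (MonoidAlgebra.single x⁻¹ (1 : ℚ) • s))
      map_add' := fun s t => by
        apply ev_ext
        intro x
        rw [ev_add, ev_mkV, ev_mkV, ev_mkV, smul_add, map_add]
      map_smul' := fun a s => by
        apply ev_ext
        intro x
        rw [RingHom.id_apply, ev_smul, ev_mkV, ev_mkV, smul_comm, map_smul, smul_eq_mul] }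
  have hpsi0 : ∀ s x, ev (psi0 s) x = l (MonoidAlgebra.single x⁻¹ (1 : ℚ) • s) := fun s x => rfl
  let psi : S →ₗ[MonoidAlgebra ℚ P] VV ℚ P P := MonoidAlgebra.equivariantOfLinearOfComm psi0 (by
    intro σ s
    apply ev_ext
    intro x
    rw [ev_single, one_mul, hpsi0, hpsi0, ← mul_smul, MonoidAlgebra.single_mul_single, one_mul,
      smul_eq_mul, mul_inv_rev, inv_inv])
  have hpsi : ∀ s x, ev (psi s) x = l (MonoidAlgebra.single x⁻¹ (1 : ℚ) • s) := fun s x => rfl
  have hinj : Function.Injective psi := by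
    rcases LinearMap.injective_or_eq_zero psi with h | h
    · exact h
    · exfalso
      apply hl
      have h1 := hpsi s0 1
      rw [h, inv_one, ← MonoidAlgebra.one_def, one_smul] at h1
      rw [← h1]
      rfl
  let e : S ≃ₗ[MonoidAlgebra ℚ P] LinearMap.range psi := LinearEquiv.ofInjective psi hinj
  have hk : kerM (LinearMap.range psi) = ⊥ := by
    rw [Subgroup.eq_bot_iff_forall]
    intro σ hσ
    rw [mem_kerM] at hσ
    apply hf σ
    intro s
    apply e.injective
    rw [map_smul]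
    exact hσ (e s)
  have hr : finrank ℚ (LinearMap.range psi) = finrank ℚ S := (e.restrictScalars ℚ).finrank_eq.symm
  have h1 := Pool.Agent.Lib.MP_938ce2_ag_h65u.card_quot_le (LinearMap.range psi) 3 h3
  rw [hr, hk] at h1
  have h2 : Nat.card (P ⧸ (⊥ : Subgroup P)) = Nat.card P := Subgroup.index_bot
  rw [h2, Nat.card_eq_fintype_card] at h1
  exact h1

end Pool.Agent.Lib.MP_938ce2_ag_u3
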