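import Mathlib
import Pool.Agent.Lib.MP_938ce2_ag_u3.RegMod
import Pool.Agent.Lib.MP_938ce2_ag_h88.M2
import Pool.Agent.Lib.MP_938ce2_ag_h79.Even

/-!
Row RegNum: the numbers of a module trivial on the stabilizers.
-/

set_option autoImplicit false
set_option linter.unusedSectionVars false

namespace Pool.Agent.Lib.MP_938ce2_ag_u3

open Finset Module MonoidAlgebra
open Pool.Agent.Lib.MP_938ce2_ag_h67 (sg VV ev mkV Orb red kerM)
open Pool.Agent.Lib.MP_938ce2_ag_h60 (CMType)
open Pool.Agent.Lib.MP_938ce2_ag_u2 (Act OddM badC mem_badC dM dE dH)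

private theorem regNum_aux {P S : Type} [Group P] [Fintype P] [AddCommGroup S] [Module ℚ S]
    [Module (MonoidAlgebra ℚ P) S] [IsScalarTower ℚ (MonoidAlgebra ℚ P) S]
    [FiniteDimensional ℚ S] [IsSimpleModule (MonoidAlgebra ℚ P) S]
    (hP : (Fintype.card P).Coprime 6) (h1 : finrank ℚ S ≠ 1) :
    ∃ n : ℕ, Odd n ∧ finrank ℚ S = n * finrank ℚ (S →ₗ[MonoidAlgebra ℚ P] S) ∧
      Even (finrank ℚ (S →ₗ[MonoidAlgebra ℚ P] S)) ∧
      2 ≤ finrank ℚ (S →ₗ[MonoidAlgebra ℚ P] S) ∧ 4 ≤ finrank ℚ S := by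
  classical
  have hnt : Nontrivial S := IsSimpleModule.nontrivial (MonoidAlgebra ℚ P) S
  have hpos : 0 < finrank ℚ S := Module.finrank_pos
  have hodd : Odd (Fintype.card P) := by
    have h2 : (Fintype.card P).Coprime 2 := Nat.Coprime.coprime_dvd_right (by norm_num) hP
    exact (Nat.coprime_two_right).1 h2
  have hinv : ∀ v : S, ∑ σ : P, (MonoidAlgebra.single σ (1 : ℚ) : MonoidAlgebra ℚ P) • v = 0 := by
    intro v
    by_contra hne
    set w := ∑ σ : P, (MonoidAlgebra.single σ (1 : ℚ) : MonoidAlgebra ℚ P) • v with hw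
    have hfix : ∀ τ : P, (MonoidAlgebra.single τ (1 : ℚ) : MonoidAlgebra ℚ P) • w = w := by
      intro τ
      rw [hw, Finset.smul_sum]
      have e1 : ∀ σ : P, (MonoidAlgebra.single τ (1 : ℚ) : MonoidAlgebra ℚ P) •
          (MonoidAlgebra.single σ (1 : ℚ) : MonoidAlgebra ℚ P) • v =
          (MonoidAlgebra.single (τ * σ) (1 : ℚ) : MonoidAlgebra ℚ P) • v := by
        intro σ
        rw [← mul_smul, MonoidAlgebra.single_mul_single, one_mul]
      rw [Finset.sum_congr rfl fun σ _ => e1 σ]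
      exact Fintype.sum_equiv (Equiv.mulLeft τ) _ _ fun σ => rfl
    have hline : ∀ x : MonoidAlgebra ℚ P, ∃ a : ℚ, a • w = x • w := by
      intro x
      induction x using MonoidAlgebra.induction_on with
      | of g =>
        refine ⟨1, ?_⟩
        rw [one_smul]
        exact (hfix g).symm
      | add x y hx hy =>
        obtain ⟨a, ha⟩ := hx
        obtain ⟨b, hb⟩ := hy
        exact ⟨a + b, by rw [add_smul, add_smul, ha, hb]⟩
      | smul r x hx =>
        obtain ⟨a, ha⟩ := hx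
        exact ⟨r * a, by rw [mul_smul, ha, smul_assoc]⟩
    have hle : finrank ℚ S ≤ 1 := by
      apply finrank_le_one w
      intro s
      obtain ⟨x, hx⟩ := IsSimpleModule.toSpanSingleton_surjective (MonoidAlgebra ℚ P) hne s
      obtain ⟨a, ha⟩ := hline x
      refine ⟨a, ?_⟩
      rw [ha, ← hx]
      rfl
    omega
  obtain ⟨n, hn, hdim⟩ := Pool.Agent.Lib.MP_938ce2_ag_h88.exists_odd_mul_finrank_end P S hodd
  have heven := Pool.Agent.Lib.MP_938ce2_ag_h79.even_finrank_end (P := P) (S := S) hodd hinv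
  have hne0 : finrank ℚ (S →ₗ[MonoidAlgebra ℚ P] S) ≠ 0 := by
    intro h0
    rw [h0, mul_zero] at hdim
    omega
  have hmove : ∃ (σ : P) (s : S), (MonoidAlgebra.single σ (1 : ℚ) : MonoidAlgebra ℚ P) • s ≠ s := by
    by_contra hcon
    push Not at hcon
    obtain ⟨v, hv⟩ := exists_ne (0 : S)
    have h2 := hinv v
    rw [Finset.sum_congr rfl fun σ _ => hcon σ v, Finset.sum_const, Finset.card_univ] at h2
    rw [← Nat.cast_smul_eq_nsmul ℚ] at h2
    rcases smul_eq_zero.1 h2 with h3 | h3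
    · have : Fintype.card P = 0 := by exact_mod_cast h3
      exact Fintype.card_ne_zero this
    · exact hv h3
  refine ⟨n, hn, hdim, heven, ?_, Pool.Agent.Lib.MP_938ce2_ag_h79.four_le_finrank hP hmove⟩
  obtain ⟨k, hk⟩ := heven
  omega

variable {G X : Type} [Group G] [Fintype G] [MulAction G X] [Fintype X] [DecidableEq X] {c : G}
  {g : ℕ} [MulAction.IsPretransitive G X]

theorem reg_num (hA : Act G X c g) (M : Submodule (MonoidAlgebra ℚ G) (VV ℚ G X))
    (hs : IsSimpleModule (MonoidAlgebra ℚ G) M) (hodd : OddM c M) (heq : dH M = dM M)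
    (hw : (Nat.card (Orb (kerM M) X) / 2).Coprime 6) (h1 : dM M ≠ 1) :
    ∃ n : ℕ, Odd n ∧ dM M = n * dE M ∧ Even (dE M) ∧ 2 ≤ dE M ∧ 4 ≤ dM M := by
  obtain ⟨P, _, _, _, _, r, hP, hsimp, hE, -, -, -, -⟩ := reg_mod hA M hs hodd heq hw
  have hfin : FiniteDimensional ℚ M := by
    have : FiniteDimensional ℚ (M.restrictScalars ℚ) := inferInstance
    exact this
  obtain ⟨n, hn, h2, h3, h4, h5⟩ := regNum_aux (P := P) (S := M) hP h1
  rw [hE] at h2 h3 h4
  exact ⟨n, hn, h2, h3, h4, h5⟩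

end Pool.Agent.Lib.MP_938ce2_ag_u3
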