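import Mathlib
import Pool.Agent.Lib.MP_938ce2_ag_h65u.Unif
import Pool.Agent.Lib.MP_938ce2_ag_h65u.Trans

/-!
Row UnifG: uniformity in the group, abstract groups.
-/

set_option autoImplicit false
set_option linter.unusedSectionVars false

namespace Pool.Agent.Lib.MP_938ce2_ag_u3

open Finset Module
open Pool.Agent.Lib.MP_938ce2_ag_h65u (ker_set mem_ker_set sv)

theorem unif_card (B : ℕ) : ∃ C : ℝ, 0 < C ∧
    ∀ (P : Type) [Group P] [Fintype P], Fintype.card P ≤ B → ∀ (S : Type) [AddCommGroup S]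
      [Module ℚ S] [Module (MonoidAlgebra ℚ P) S] [IsScalarTower ℚ (MonoidAlgebra ℚ P) S]
      [Module.Finite ℚ S] [IsSimpleModule (MonoidAlgebra ℚ P) S],
      finrank ℚ (S →ₗ[MonoidAlgebra ℚ P] S) = 2 → 4 ≤ finrank ℚ S → ∀ r : ℕ, 1 ≤ r →
      ((ker_set P S r).card : ℝ) ≤ C * (r : ℝ) ^ (-(5 / 4) : ℝ) * 2 ^ (r * Fintype.card P) := by
  obtain ⟨C, hC0, hC⟩ := Pool.Agent.Lib.MP_938ce2_ag_h65u.unif B
  refine ⟨C, hC0, ?_⟩
  intro P _ _ hB S _ _ _ _ _ _ h2 h4 r hr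
  classical
  obtain ⟨Q, φ, hφ, hφK, hQ⟩ := Pool.Agent.Lib.MP_938ce2_ag_h65u.exists_perm_quot P (⊥ : Subgroup P)
  have hn : Nat.card (P ⧸ (⊥ : Subgroup P)) = Fintype.card P := by
    have h : Nat.card (P ⧸ (⊥ : Subgroup P)) = Nat.card P := Subgroup.index_bot
    rw [h, Nat.card_eq_fintype_card]
  have hinj : Function.Injective φ := by
    rw [injective_iff_map_eq_one]
    intro σ hσ
    exact Subgroup.mem_bot.1 ((hφK σ).1 hσ)
  let _ : Fintype Q := Fintype.ofFinite Q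
  obtain ⟨instM, instT, hM⟩ := Pool.Agent.Lib.MP_938ce2_ag_h65u.exists_module φ hφ S
    (fun σ hσ s => by
      have h1 : σ = 1 := Subgroup.mem_bot.1 ((hφK σ).1 hσ)
      rw [h1, ← MonoidAlgebra.one_def, one_smul])
  have hsQ : IsSimpleModule (MonoidAlgebra ℚ Q) S :=
    Pool.Agent.Lib.MP_938ce2_ag_h65u.simple_transfer φ S hM
  have heQ : finrank ℚ (S →ₗ[MonoidAlgebra ℚ Q] S) = 2 := by
    rw [Pool.Agent.Lib.MP_938ce2_ag_h65u.finrank_end_transfer φ hφ S hM, h2]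
  have hker := hC _ (hn.le.trans hB) Q S heQ h4 r hr
  have hcQ : Fintype.card Q = Fintype.card P := by
    rw [← Nat.card_eq_fintype_card, hQ, hn]
  rw [hcQ] at hker
  refine le_trans ?_ hker
  let e : P ≃ Q := Equiv.ofBijective φ ⟨hinj, hφ⟩
  have he : ∀ σ, e σ = φ σ := fun σ => rfl
  have hle : (ker_set P S r).card ≤ (ker_set Q S r).card := by
    refine Finset.card_le_card_of_injOn (fun s y => s (e.symm y)) ?_ ?_
    · intro s hs
      rw [Finset.mem_coe, mem_ker_set] at hs ⊢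
      obtain ⟨v, hv, hsum⟩ := hs
      refine ⟨v, hv, ?_⟩
      rw [← hsum]
      refine (Fintype.sum_equiv e _ _ fun σ => ?_).symm
      show _ = ((sv (s (e.symm (e σ))) : ℤ) : ℚ) • (MonoidAlgebra.single (e σ) (1 : ℚ) • v)
      rw [e.symm_apply_apply, he, hM]
    · intro s _ t _ hst
      funext σ
      have h5 := congrFun hst (e σ)
      simpa using h5
  exact_mod_cast hle

end Pool.Agent.Lib.MP_938ce2_ag_u3
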