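import Mathlib
import Pool.Agent.Lib.MP_938ce2_ag_u3.RegNum
import Pool.Agent.Lib.MP_938ce2_ag_u3.UnifG
import Pool.Agent.Lib.MP_938ce2_ag_u3.MinkS

/-!
Row SmallC: modules of bounded dimension with an imaginary quadratic field of endomorphisms.
-/

set_option autoImplicit false
set_option linter.unusedSectionVars false

namespace Pool.Agent.Lib.MP_938ce2_ag_u3

open Finset Module MonoidAlgebra
open Pool.Agent.Lib.MP_938ce2_ag_h67 (sg VV ev mkV Orb red kerM)
open Pool.Agent.Lib.MP_938ce2_ag_h60 (CMType)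
open Pool.Agent.Lib.MP_938ce2_ag_u2 (Act OddM badC mem_badC dM dE dH)
open Pool.Agent.Lib.MP_938ce2_ag_h65u (ker_set)

namespace SmallCAux

/-- a module of dimension one has only rational endomorphisms -/
theorem end_le {G X : Type} [Group G] [Fintype G] [MulAction G X] [Fintype X] [DecidableEq X]
    (M : Submodule (MonoidAlgebra ℚ G) (VV ℚ G X)) [Module.Finite ℚ M] : dE M ≤ dM M * dM M := by
  let f : (M →ₗ[MonoidAlgebra ℚ G] M) →ₗ[ℚ] (M →ₗ[ℚ] M) :=
    { toFun := fun f => f.restrictScalars ℚ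
      map_add' := fun _ _ => rfl
      map_smul' := fun _ _ => rfl }
  have hf : Function.Injective f := by
    intro a b hab
    ext1 v
    exact LinearMap.congr_fun hab v
  have h := LinearMap.finrank_le_finrank_of_injective hf
  have h2 := Module.finrank_linearMap ℚ ℚ M M
  exact h.trans h2.le

end SmallCAux

theorem small_c (M₀ : ℕ) : ∃ C : ℝ, 0 < C ∧ ∀ (G X : Type) [Group G] [Fintype G] [MulAction G X]
    [Fintype X] [DecidableEq X] [MulAction.IsPretransitive G X] (c : G) (g : ℕ), Act G X c g →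
    ∀ M : Submodule (MonoidAlgebra ℚ G) (VV ℚ G X), IsSimpleModule (MonoidAlgebra ℚ G) M →
      OddM c M → dH M = dM M → (Nat.card (Orb (kerM M) X) / 2).Coprime 6 → dM M ≤ M₀ →
      dE M = 2 → ((badC c M).card : ℝ) / 2 ^ g ≤ C * (g : ℝ) ^ (-(5 / 4) : ℝ) := by
  obtain ⟨C, hC0, hC⟩ := unif_card (3 ^ (M₀ * M₀))
  refine ⟨C * ((3 : ℝ) ^ (M₀ * M₀)) ^ (5 / 4 : ℝ), by positivity, ?_⟩
  intro G X _ _ _ _ _ _ c g hA M hs hodd heq hw hm hE
  have hfin : Module.Finite ℚ M := Module.Finite.of_injective (M.subtype.restrictScalars ℚ)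
    Subtype.val_injective
  have h1 : dM M ≠ 1 := by
    intro h1
    have := SmallCAux.end_le M
    rw [h1, hE] at this
    omega
  obtain ⟨_, -, -, -, -, h4⟩ := reg_num hA M hs hodd heq hw h1
  obtain ⟨P, instG, instF, instM, instT, r, hcop, hsP, hEP, hr1, hg, hfa, hbad⟩ :=
    reg_mod hA M hs hodd heq hw
  have h3P : ¬ 3 ∣ Fintype.card P := by
    intro h
    have := Nat.dvd_gcd h (show 3 ∣ 6 by norm_num)
    rw [hcop] at this
    norm_num at this
  have hn : Fintype.card P ≤ 3 ^ (M₀ * M₀) :=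
    (card_le_mink P h3P M hfa).trans
      (Nat.pow_le_pow_right (by norm_num) (Nat.mul_le_mul hm hm))
  have hker := hC P hn M (hEP.trans hE) h4 r hr1
  have hbad' : ((badC c M).card : ℝ) ≤ (ker_set P M r).card := by exact_mod_cast hbad
  have hcQ1 : (1 : ℝ) ≤ Fintype.card P := by exact_mod_cast Fintype.card_pos
  have hcQ3 : (Fintype.card P : ℝ) ≤ (3 : ℝ) ^ (M₀ * M₀) := by exact_mod_cast hn
  have hr0 : (0 : ℝ) < r := by exact_mod_cast hr1
  rw [div_le_iff₀ (by positivity)]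
  refine hbad'.trans (hker.trans ?_)
  rw [← hg]
  have hgr : (g : ℝ) = r * Fintype.card P := by exact_mod_cast hg
  have h6 : (r : ℝ) ^ (-(5 / 4) : ℝ)
      = (Fintype.card P : ℝ) ^ (5 / 4 : ℝ) * (g : ℝ) ^ (-(5 / 4) : ℝ) := by
    rw [hgr, Real.mul_rpow hr0.le (by linarith), mul_comm, mul_assoc, ← Real.rpow_add (by linarith)]
    norm_num
  rw [h6]
  have h7 : (Fintype.card P : ℝ) ^ (5 / 4 : ℝ) ≤ ((3 : ℝ) ^ (M₀ * M₀)) ^ (5 / 4 : ℝ) :=
    Real.rpow_le_rpow (by linarith) hcQ3 (by norm_num)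
  have h8 : (0 : ℝ) ≤ C * (g : ℝ) ^ (-(5 / 4) : ℝ) * 2 ^ g := by positivity
  calc _ = (Fintype.card P : ℝ) ^ (5 / 4 : ℝ)
        * (C * (g : ℝ) ^ (-(5 / 4) : ℝ) * 2 ^ g) := by ring
    _ ≤ ((3 : ℝ) ^ (M₀ * M₀)) ^ (5 / 4 : ℝ)
        * (C * (g : ℝ) ^ (-(5 / 4) : ℝ) * 2 ^ g) :=
        mul_le_mul_of_nonneg_right h7 h8
    _ = _ := by ring

end Pool.Agent.Lib.MP_938ce2_ag_u3
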