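import Mathlib
import Pool.Agent.Lib.MP_938ce2_ag_h67.Cos

/-!
Row CosHalf: the cosine sum over an invariant code, with an exponent.
-/

set_option autoImplicit false
set_option linter.unusedSectionVars false

namespace Pool.Agent.Lib.MP_938ce2_ag_u3

open Finset Real Module
open Pool.Agent.Lib.MP_938ce2_ag_h67 (cs csum cs_pos exists_info sum_smul_transitive)

variable {P : Type} [Group P] [Fintype P] {Ω : Type} [Fintype Ω] [MulAction P Ω]
  [MulAction.IsPretransitive P Ω] {q : ℕ} [Fact q.Prime]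

theorem sum_code_pow (hq : Odd q) (C : Submodule (ZMod q) (Ω → ZMod q))
    (hC : ∀ σ : P, ∀ y ∈ C, (fun x => y (σ • x)) ∈ C)
    (hpos : 0 < finrank (ZMod q) C) [Fintype C] (θ : ℝ) (hθ : 0 < θ) :
    ∑ y : C, ∏ x, cs ((y : Ω → ZMod q) x) ^ θ
      ≤ csum q (θ * (Fintype.card Ω : ℝ) / finrank (ZMod q) C) ^ finrank (ZMod q) C := by
  classical
  obtain ⟨κ, _, a, ha, hcard, hbij⟩ := exists_info C
  set ν := finrank (ZMod q) C with hν
  set g := Fintype.card Ω with hg
  have hνR : (0 : ℝ) < ν := by exact_mod_cast hpos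
  have hP : (0 : ℝ) < Fintype.card P := by
    exact_mod_cast Fintype.card_pos
  set ρ : ℝ := θ * (g : ℝ) / ν with hρ
  let l : C → Ω → ℝ := fun y x => log (cs ((y : Ω → ZMod q) x))
  have hexp : ∀ y x, exp (l y x) = cs ((y : Ω → ZMod q) x) := fun y x => exp_log (cs_pos hq _)
  have hw : ∀ y : C, (ν : ℝ) * (Fintype.card P * ∑ x, l y x)
      = g * ∑ σ : P, ∑ i : κ, l y (σ • a i) := by
    intro y
    have h1 : ∀ i : κ, (g : ℝ) * ∑ σ : P, l y (σ • a i) = Fintype.card P * ∑ x, l y x := by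
      intro i
      rw [hg, sum_smul_transitive (P := P) (fun x => l y x) (a i)]
    have h2 : (g : ℝ) * ∑ σ : P, ∑ i : κ, l y (σ • a i)
        = ∑ i : κ, (g : ℝ) * ∑ σ : P, l y (σ • a i) := by
      rw [Finset.sum_comm, Finset.mul_sum]
    rw [h2, Finset.sum_congr rfl fun i _ => h1 i, Finset.sum_const, Finset.card_univ, hcard,
      nsmul_eq_mul]
  have h3 : ∀ y : C, ∏ x, cs ((y : Ω → ZMod q) x) ^ θ
      ≤ ∑ σ : P, (Fintype.card P : ℝ)⁻¹ * ∏ i : κ, cs ((y : Ω → ZMod q) (σ • a i)) ^ ρ := by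
    intro y
    have h4 := convexOn_exp.map_sum_le (t := (univ : Finset P))
      (w := fun _ => (Fintype.card P : ℝ)⁻¹) (p := fun σ => ρ * ∑ i : κ, l y (σ • a i))
      (fun _ _ => by positivity) (by
        rw [Finset.sum_const, Finset.card_univ, nsmul_eq_mul, mul_inv_cancel₀ hP.ne'])
      (fun _ _ => Set.mem_univ _)
    simp only [smul_eq_mul] at h4
    have h5 : ∏ x, cs ((y : Ω → ZMod q) x) ^ θ
        = exp (∑ σ : P, (Fintype.card P : ℝ)⁻¹ * (ρ * ∑ i : κ, l y (σ • a i))) := by
      rw [← Finset.mul_sum, ← Finset.mul_sum]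
      have h6 := hw y
      have h7 : ∑ x, l y x * θ
          = (Fintype.card P : ℝ)⁻¹ * (ρ * ∑ σ : P, ∑ i : κ, l y (σ • a i)) := by
        have h8 : ∑ σ : P, ∑ i : κ, l y (σ • a i)
            = (g : ℝ)⁻¹ * ((ν : ℝ) * (Fintype.card P * ∑ x, l y x)) ∨ (g : ℝ) = 0 := by
          rcases eq_or_ne (g : ℝ) 0 with h | h
          · exact Or.inr h
          · left
            rw [h6]
            field_simp
        rcases h8 with h8 | h8
        · have hg0 : (g : ℝ) ≠ 0 ∨ (g : ℝ) = 0 := (eq_or_ne (g : ℝ) 0).symm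
          rcases hg0 with hg0 | hg0
          · rw [h8, hρ, ← Finset.sum_mul]
            field_simp
          · have h9 : ∑ x, l y x * θ = 0 := by
              have h10 : IsEmpty Ω := by
                rw [← Fintype.card_eq_zero_iff]
                exact_mod_cast hg0
              simp
            rw [h9, hρ, hg0]
            simp
        · have h9 : ∑ x, l y x * θ = 0 := by
            have h10 : IsEmpty Ω := by
              rw [← Fintype.card_eq_zero_iff]
              exact_mod_cast h8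
            simp
          rw [h9, hρ, h8]
          simp
      rw [← h7, exp_sum]
      refine Finset.prod_congr rfl fun x _ => ?_
      rw [exp_mul, hexp]
    rw [h5]
    refine h4.trans (le_of_eq (Finset.sum_congr rfl fun σ _ => ?_))
    congr 1
    rw [Finset.mul_sum, exp_sum]
    refine Finset.prod_congr rfl fun i _ => ?_
    rw [mul_comm, exp_mul, hexp]
  have h8 : ∀ σ : P, ∑ y : C, ∏ i : κ, cs ((y : Ω → ZMod q) (σ • a i)) ^ ρ = csum q ρ ^ ν := by
    intro σ
    have hb : Function.Bijective (fun (y : C) (i : κ) => (y : Ω → ZMod q) (σ • a i)) := by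
      let T : C → C := fun y => ⟨fun x => (y : Ω → ZMod q) (σ • x), hC σ y y.2⟩
      have hT : Function.Bijective T := by
        refine Function.bijective_iff_has_inverse.mpr
          ⟨fun y => ⟨fun x => (y : Ω → ZMod q) (σ⁻¹ • x), hC σ⁻¹ y y.2⟩, fun y => ?_, fun y => ?_⟩
        · apply Subtype.ext
          funext x
          show (y : Ω → ZMod q) (σ • σ⁻¹ • x) = _
          rw [smul_inv_smul]
        · apply Subtype.ext
          funext x
          show (y : Ω → ZMod q) (σ⁻¹ • σ • x) = _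
          rw [inv_smul_smul]
      exact hbij.comp hT
    have h9 := Function.Bijective.sum_comp hb (fun z : κ → ZMod q => ∏ i, cs (z i) ^ ρ)
    rw [h9]
    have h10 : ∑ z : κ → ZMod q, ∏ i, cs (z i) ^ ρ = ∏ _i : κ, csum q ρ := by
      unfold csum
      rw [Finset.prod_univ_sum, Fintype.piFinset_univ]
    rw [h10, Finset.prod_const, Finset.card_univ, hcard]
  calc ∑ y : C, ∏ x, cs ((y : Ω → ZMod q) x) ^ θ
      ≤ ∑ y : C, ∑ σ : P, (Fintype.card P : ℝ)⁻¹ * ∏ i : κ, cs ((y : Ω → ZMod q) (σ • a i)) ^ ρ :=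
        Finset.sum_le_sum fun y _ => h3 y
    _ = ∑ σ : P, (Fintype.card P : ℝ)⁻¹ * ∑ y : C, ∏ i : κ, cs ((y : Ω → ZMod q) (σ • a i)) ^ ρ := by
        rw [Finset.sum_comm]
        exact Finset.sum_congr rfl fun σ _ => by rw [Finset.mul_sum]
    _ = csum q ρ ^ ν := by
        rw [Finset.sum_congr rfl fun σ _ => by rw [h8 σ], Finset.sum_const, Finset.card_univ,
          nsmul_eq_mul, ← mul_assoc, mul_inv_cancel₀ hP.ne', one_mul]

end Pool.Agent.Lib.MP_938ce2_ag_u3
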