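import Mathlib
import Pool.Agent.Lib.MP_938ce2_ag_u2.Half
import Pool.Agent.Lib.MP_938ce2_ag_u3.CosHalf

/-!
Row CountCs: the number of CM types orthogonal to an invariant odd code, cosine form.
-/

set_option autoImplicit false
set_option linter.unusedSectionVars false

namespace Pool.Agent.Lib.MP_938ce2_ag_u3

open Finset Module MonoidAlgebra
open Pool.Agent.Lib.MP_938ce2_ag_h67 (sg VV ev mkV Orb red kerM)
open Pool.Agent.Lib.MP_938ce2_ag_h60 (CMType)
open Pool.Agent.Lib.MP_938ce2_ag_u2 (Act OddM badC mem_badC dM dE dH exists_cm cmExt sum_cmExt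
  card_cm_filter card_cm)

variable {G X : Type} [Group G] [Fintype G] [MulAction G X] [Fintype X] [DecidableEq X] {c : G}
  {g : ℕ} [MulAction.IsPretransitive G X]

open Pool.Agent.Lib.MP_938ce2_ag_h67 (cs csum)


section Neg

variable {q : ℕ} [Fact q.Prime]

lemma cs_neg (t : ZMod q) : cs (-t) = cs t := by
  by_cases ht : t = 0
  · rw [ht, neg_zero]
  · have hne : NeZero t := ⟨ht⟩
    unfold cs
    have h1 : ((-t).val : ℝ) = (q : ℝ) - (t.val : ℝ) := by
      rw [ZMod.val_neg_of_ne_zero t, Nat.cast_sub (ZMod.val_lt t).le]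
    have hq0 : (q : ℝ) ≠ 0 := by exact_mod_cast (Fact.out : q.Prime).ne_zero
    have h2 : 2 * Real.pi * ((-t).val : ℝ) / (q : ℝ)
        = 2 * Real.pi - 2 * Real.pi * (t.val : ℝ) / (q : ℝ) := by
      rw [h1]
      field_simp
    rw [h2, Real.cos_two_pi_sub]

end Neg

/-- Products over a CM type and its complement. -/
lemma prod_type (hA : Act G X c g) {Φ : Finset X} (hΦ : CMType c Φ) (f : X → ℝ) :
    (∏ σ ∈ Φ, f σ) * ∏ σ ∈ Φ, f (c • σ) = ∏ σ, f σ := by
  have h1 : ∏ σ ∈ Φ, f (c • σ) = ∏ σ ∈ Finset.univ.filter (fun σ => σ ∉ Φ), f σ := by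
    refine Finset.prod_nbij' (fun σ => c • σ) (fun σ => c • σ) ?_ ?_ ?_ ?_ ?_
    · intro σ hσ
      rw [Finset.mem_filter]
      exact ⟨Finset.mem_univ _, (hΦ σ).mp hσ⟩
    · intro σ hσ
      rw [Finset.mem_filter] at hσ
      rw [hΦ, hA.cc]
      exact hσ.2
    · intro σ _; exact hA.cc σ
    · intro σ _; exact hA.cc σ
    · intro σ _; rfl
  rw [h1]
  have := Finset.prod_filter_mul_prod_filter_not Finset.univ (fun σ => σ ∈ Φ) f
  rw [← this]
  congr 1
  simp

open Classical in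
theorem card_orth_cs (hA : Act G X c g) {q : ℕ} [Fact q.Prime] (hq : Odd q)
    (C : Submodule (ZMod q) (X → ZMod q)) (hodd : ∀ y ∈ C, ∀ x, y (c • x) = - y x)
    (hinv : ∀ σ : G, ∀ y ∈ C, (fun x => y (σ • x)) ∈ C) (hpos : 0 < finrank (ZMod q) C) :
    ((Finset.univ.filter fun Φ : Finset X =>
        CMType c Φ ∧ ∀ y ∈ C, ∑ x, (sg Φ x : ZMod q) * y x = 0).card : ℝ)
        * (q : ℝ) ^ finrank (ZMod q) C
      ≤ 2 ^ g * csum q ((g : ℝ) / finrank (ZMod q) C) ^ finrank (ZMod q) C := by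
  obtain ⟨Φ₀, h₀⟩ := exists_cm hA
  have h2 : (2 : ZMod q) ≠ 0 := by
    intro h
    have h3 : ((2 : ℕ) : ZMod q) = 0 := by exact_mod_cast h
    rw [ZMod.natCast_eq_zero_iff] at h3
    have h4 := (Nat.prime_dvd_prime_iff_eq (Fact.out : q.Prime) Nat.prime_two).1 h3
    rw [h4] at hq
    exact absurd hq (by decide)
  -- restriction to the half system
  let res : (X → ZMod q) →ₗ[ZMod q] ({x // x ∈ Φ₀} → ZMod q) :=
    LinearMap.funLeft (ZMod q) (ZMod q) Subtype.val
  have hres : ∀ (y : X → ZMod q) (x : {x // x ∈ Φ₀}), res y x = y x.1 := fun _ _ => rfl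
  let r : C →ₗ[ZMod q] ({x // x ∈ Φ₀} → ZMod q) := res.comp C.subtype
  have hr : ∀ (y : C) (x : {x // x ∈ Φ₀}), r y x = (y : X → ZMod q) x.1 := fun _ _ => rfl
  have hrinj : Function.Injective r := by
    rw [injective_iff_map_eq_zero]
    intro y hy
    apply Subtype.ext
    funext x
    change (y : X → ZMod q) x = 0
    by_cases hx : x ∈ Φ₀
    · exact congrFun hy ⟨x, hx⟩
    · have hx2 : c • x ∈ Φ₀ := by
        by_contra h
        exact hx ((h₀ x).2 h)
      have h5 : (y : X → ZMod q) (c • x) = 0 := congrFun hy ⟨c • x, hx2⟩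
      rw [hodd y y.2] at h5
      exact neg_eq_zero.1 h5
  let C' : Submodule (ZMod q) ({x // x ∈ Φ₀} → ZMod q) := LinearMap.range r
  let eC : C ≃ₗ[ZMod q] C' := LinearEquiv.ofInjective r hrinj
  have heC : ∀ (y : C) (x : {x // x ∈ Φ₀}), (eC y : {x // x ∈ Φ₀} → ZMod q) x
      = (y : X → ZMod q) x.1 := fun _ _ => rfl
  -- the count
  have h6 : ∀ η : Finset {x // x ∈ Φ₀}, (∀ y ∈ C, ∑ x, (sg (cmExt c Φ₀ η) x : ZMod q) * y x = 0) ↔
      ∀ y ∈ C', ∑ x, (sg η x : ZMod q) * y x = 0 := by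
    intro η
    have h7 : ∀ y ∈ C, ∑ x, (sg (cmExt c Φ₀ η) x : ZMod q) * y x
        = 2 * ∑ x : {x // x ∈ Φ₀}, (sg η x : ZMod q) * y x.1 := by
      intro y hy
      have h8 := sum_cmExt hA h₀ η y (hodd y hy)
      simp only [zsmul_eq_mul, nsmul_eq_mul] at h8
      exact_mod_cast h8
    constructor
    · rintro h _ ⟨y, rfl⟩
      have h9 := h y y.2
      rw [h7 y y.2] at h9
      exact (mul_eq_zero.1 h9).resolve_left h2
    · intro h y hy
      rw [h7 y hy]
      have h9 : ∑ x, (sg η x : ZMod q) * (r ⟨y, hy⟩) x = 0 := h _ ⟨_, rfl⟩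
      have h10 : ∑ x : {x // x ∈ Φ₀}, (sg η x : ZMod q) * y x.1 = 0 := h9
      rw [h10, mul_zero]
  have h11 := Pool.Agent.Lib.MP_938ce2_ag_h67.card_orth_cos C'
  have e1 : (Finset.univ.filter fun Φ : Finset X =>
        CMType c Φ ∧ ∀ y ∈ C, ∑ x, (sg Φ x : ZMod q) * y x = 0).card
      = (univ.filter fun η : Finset {x // x ∈ Φ₀} =>
        ∀ y ∈ C', ∑ x, (sg η x : ZMod q) * y x = 0).card := by
    have e2 := card_cm_filter hA h₀ (fun Φ => ∀ y ∈ C, ∑ x, (sg Φ x : ZMod q) * y x = 0)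
    simp only [h6] at e2
    convert e2
  rw [e1]
  have hcardC : Nat.card C' = q ^ finrank (ZMod q) C := by
    have h12 := Module.card_eq_pow_finrank (K := ZMod q) (V := C)
    rw [← Nat.card_congr eC.toEquiv, Nat.card_eq_fintype_card, h12, ZMod.card]
  rw [hcardC, card_cm hA h₀] at h11
  push_cast at h11
  -- the products
  have hpr : ∀ y : C, ∏ x : {x // x ∈ Φ₀}, cs ((eC y : {x // x ∈ Φ₀} → ZMod q) x)
      = ∏ x, cs ((y : X → ZMod q) x) ^ (1 / 2 : ℝ) := by
    intro y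
    rw [← prod_type hA h₀ (fun x => cs ((y : X → ZMod q) x) ^ (1 / 2 : ℝ)),
      ← Finset.prod_mul_distrib, ← Finset.prod_coe_sort Φ₀]
    refine Finset.prod_congr rfl fun x _ => ?_
    have h16 : (y : X → ZMod q) (c • x.1) = - (y : X → ZMod q) x.1 := hodd y y.2 x.1
    have h18 : 0 < cs ((y : X → ZMod q) x.1) :=
      Pool.Agent.Lib.MP_938ce2_ag_h67.cs_pos hq _
    rw [heC y x, h16, cs_neg, ← Real.rpow_add h18]
    norm_num
  have h15 := sum_code_pow (P := G) hq C hinv hpos (1 / 2 : ℝ) (by norm_num)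
  rw [hA.card] at h15
  refine h11.trans (mul_le_mul_of_nonneg_left (le_trans (le_of_eq ?_) (h15.trans (le_of_eq ?_)))
    (by positivity))
  · refine Finset.sum_equiv eC.symm.toEquiv (fun y => by simp) fun y _ => ?_
    have h18 := hpr (eC.symm y)
    rw [LinearEquiv.apply_symm_apply] at h18
    exact h18
  · congr 2
    push_cast
    ring

end Pool.Agent.Lib.MP_938ce2_ag_u3
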