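import Mathlib
import Pool.Agent.Lib.MP_938ce2_ag_u2.TypeC
import Pool.Agent.Lib.MP_938ce2_ag_u3.CountCs

/-!
Row TypeCs: the refined bounds for the number of CM types orthogonal to some copy of a module.
-/

set_option autoImplicit false
set_option linter.unusedSectionVars false

namespace Pool.Agent.Lib.MP_938ce2_ag_u3

open Finset Module MonoidAlgebra
open Pool.Agent.Lib.MP_938ce2_ag_h67 (sg VV ev mkV Orb red kerM)
open Pool.Agent.Lib.MP_938ce2_ag_h60 (CMType)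
open Pool.Agent.Lib.MP_938ce2_ag_u2 (Act OddM badC mem_badC dM dE dH)

variable {G X : Type} [Group G] [Fintype G] [MulAction G X] [Fintype X] [DecidableEq X] {c : G}
  {g : ℕ} [MulAction.IsPretransitive G X]

open Pool.Agent.Lib.MP_938ce2_ag_h67 (cs csum)
open Pool.Agent.Lib.MP_938ce2_ag_u2.TypeCAux (QP DD DD_ker DD_fac card_gen)

theorem bad_le_csum (hA : Act G X c g) (M : Submodule (MonoidAlgebra ℚ G) (VV ℚ G X))
    (hodd : OddM c M) (hm : 0 < dM M) (hκ : dH M ≤ dM M) (q : ℕ) [Fact q.Prime] (hq2 : q ≠ 2)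
    (hqK : ¬ q ∣ (kerM M).index) :
    ((badC c M).card : ℝ) / 2 ^ g
      ≤ csum q ((g : ℝ) / dM M) ^ dM M / ((q : ℝ) - 1) ^ (dE M + dM M - dH M) := by
  classical
  have hq : q.Prime := Fact.out
  have hqodd : Odd q := hq.odd_of_ne_two hq2
  have hq3 : 3 ≤ q := by
    have := hq.two_le
    omega
  have hq3R : (3 : ℝ) ≤ q := by exact_mod_cast hq3
  have hft : Finite (Orb (kerM M) X) := Finite.of_surjective _
    (Pool.Agent.Lib.MP_938ce2_ag_h67.Orb.mk_surj (kerM M))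
  let _ : Fintype (Orb (kerM M) X) := Fintype.ofFinite _
  let _ : Fintype (QP (X := X) (kerM M)) := Fintype.ofFinite _
  let D := DD (X := X) (kerM M)
  have hcard : Fintype.card (QP (X := X) (kerM M)) = (kerM M).index := by
    have h0 : (DD (X := X) (kerM M)).φ.ker.index = (kerM M).index := by rw [DD_ker M]
    rw [← Nat.card_eq_fintype_card, ← h0, Subgroup.index_ker]
    have h1 : (DD (X := X) (kerM M)).φ.range = ⊤ :=
      MonoidHom.range_eq_top.mpr (DD (X := X) (kerM M)).hφ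
    rw [h1]
    exact Subgroup.card_top.symm
  have hqQ : ¬ q ∣ Fintype.card (QP (X := X) (kerM M)) := by
    rw [hcard]
    exact hqK
  set m := dM M with hmdef
  set κ := dH M with hκdef
  set δ := dE M with hδdef
  set E : ℝ := csum q ((g : ℝ) / m) ^ m with hE
  have hE0 : 0 ≤ E := by
    rw [hE]
    exact pow_nonneg (Pool.Agent.Lib.MP_938ce2_ag_h67.csum_nonneg _) _
  have hq1 : (0 : ℝ) < (q : ℝ) - 1 := by linarith
  have hq0 : (0 : ℝ) < (q : ℝ) := by linarith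
  have h1 := card_gen D M hodd hA.sq q hqQ (DD_fac M) (2 ^ g * E / (q : ℝ) ^ m) (by
    intro C hC1 hC2 hC3
    have h2 := card_orth_cs hA hqodd C hC1 hC2 (by rw [hC3]; exact hm)
    rw [hC3] at h2
    rw [le_div_iff₀ (by positivity)]
    refine le_trans (le_of_eq ?_) h2
    congr!)
  have hMfac := DD_fac M M ⟨LinearEquiv.refl _ _⟩
  have hδ' : δ ≤ finrank ℚ (Pool.Agent.Lib.MP_938ce2_ag_h67.down D M
      →ₗ[MonoidAlgebra ℚ (QP (X := X) (kerM M))] Pool.Agent.Lib.MP_938ce2_ag_h67.down D M) :=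
    Pool.Agent.Lib.MP_938ce2_ag_h67.finrank_end_le_down D hMfac
  have hne : NeZero (Nat.card (QP (X := X) (kerM M)) : ZMod q) := ⟨by
    rw [Nat.card_eq_fintype_card]
    exact Pool.Agent.Lib.MP_938ce2_ag_h67.card_ne_zero_mod (P := QP (X := X) (kerM M)) q hqQ⟩
  have h2 : ((q : ℝ) - 1) ^ δ
      ≤ Nat.card (red (Pool.Agent.Lib.MP_938ce2_ag_h67.down D M) (ZMod q)
        ≃ₗ[MonoidAlgebra (ZMod q) (QP (X := X) (kerM M))]
        red (Pool.Agent.Lib.MP_938ce2_ag_h67.down D M) (ZMod q)) := by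
    have h3 := Pool.Agent.Lib.MP_938ce2_ag_h67.aut_ge_odd (q := q)
      (R := MonoidAlgebra (ZMod q) (QP (X := X) (kerM M)))
      (A := red (Pool.Agent.Lib.MP_938ce2_ag_h67.down D M) (ZMod q)) hq3
    rw [Pool.Agent.Lib.MP_938ce2_ag_h67.finrank_hom_red_mod _ _ q hqQ] at h3
    refine le_trans ?_ h3
    exact pow_le_pow_right₀ (by linarith) hδ'
  have h3 : ((badC c M).card : ℝ) * ((q : ℝ) - 1) ^ δ ≤ (q : ℝ) ^ κ * (2 ^ g * E / (q : ℝ) ^ m) :=
    le_trans (mul_le_mul_of_nonneg_left h2 (Nat.cast_nonneg _)) h1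
  have h4 : (q : ℝ) ^ κ * (2 ^ g * E / (q : ℝ) ^ m) = 2 ^ g * (E / (q : ℝ) ^ (m - κ)) := by
    have : (q : ℝ) ^ m = (q : ℝ) ^ κ * (q : ℝ) ^ (m - κ) := by
      rw [← pow_add, Nat.add_sub_cancel' hκ]
    rw [this]
    field_simp
  have h5 : E / (q : ℝ) ^ (m - κ) ≤ E / ((q : ℝ) - 1) ^ (m - κ) := by
    apply div_le_div_of_nonneg_left hE0 (by positivity)
    exact pow_le_pow_left₀ hq1.le (by linarith) _
  have h6 : δ + m - κ = (m - κ) + δ := by omega
  rw [h6, pow_add, ← div_div, le_div_iff₀ (by positivity), div_mul_eq_mul_div,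
    div_le_iff₀ (by positivity)]
  calc ((badC c M).card : ℝ) * ((q : ℝ) - 1) ^ δ ≤ 2 ^ g * (E / (q : ℝ) ^ (m - κ)) := by
        rw [← h4]; exact h3
    _ ≤ 2 ^ g * (E / ((q : ℝ) - 1) ^ (m - κ)) := mul_le_mul_of_nonneg_left h5 (by positivity)
    _ = _ := by ring

theorem bad_le_refined (hA : Act G X c g) (M : Submodule (MonoidAlgebra ℚ G) (VV ℚ G X))
    (hodd : OddM c M) (hm : 0 < dM M) (hκ : dH M ≤ dM M) (q : ℕ) (hq : q.Prime) (hq2 : q ≠ 2)
    (hqK : ¬ q ∣ (kerM M).index) (hmq : dM M * q ^ 2 ≤ g) :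
    ((badC c M).card : ℝ) / 2 ^ g
      ≤ (1 + 3 * Real.exp (-(g / (dM M * (q : ℝ) ^ 2)))) ^ dM M
        / ((q : ℝ) - 1) ^ (dE M + dM M - dH M) := by
  have hf : Fact q.Prime := ⟨hq⟩
  have hqodd : Odd q := hq.odd_of_ne_two hq2
  have hmR : (0 : ℝ) < (dM M : ℝ) := by exact_mod_cast hm
  have hq1 : (0 : ℝ) ≤ (q : ℝ) - 1 := by
    have : (1 : ℝ) ≤ q := by exact_mod_cast hq.one_lt.le
    linarith
  refine (bad_le_csum hA M hodd hm hκ q hq2 hqK).trans ?_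
  have h1 : (q : ℝ) ^ 2 ≤ (g : ℝ) / dM M := by
    rw [le_div_iff₀ hmR, mul_comm]
    exact_mod_cast hmq
  have h2 := Pool.Agent.Lib.MP_938ce2_ag_h67.csum_le_refined hqodd h1
  have h3 : (g : ℝ) / dM M / (q : ℝ) ^ 2 = g / (dM M * (q : ℝ) ^ 2) := by rw [div_div]
  rw [h3] at h2
  refine div_le_div_of_nonneg_right ?_ (pow_nonneg hq1 _)
  exact pow_le_pow_left₀ (Pool.Agent.Lib.MP_938ce2_ag_h67.csum_nonneg _) h2 _

theorem bad_le_three (hA : Act G X c g) (M : Submodule (MonoidAlgebra ℚ G) (VV ℚ G X))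
    (hodd : OddM c M) (hm : 0 < dM M) (hκ : dH M = dM M) (h3 : ¬ 3 ∣ (kerM M).index) :
    ((badC c M).card : ℝ) / 2 ^ g
      ≤ (1 + 2 * (2 : ℝ) ^ (-((g : ℝ) / dM M))) ^ dM M / 2 ^ dE M := by
  have hf : Fact (Nat.Prime 3) := ⟨Nat.prime_three⟩
  have h1 := bad_le_csum hA M hodd hm hκ.le 3 (by norm_num) h3
  rw [Pool.Agent.Lib.MP_938ce2_ag_h67.cs_three] at h1
  have h2 : dE M + dM M - dH M = dE M := by omega
  rw [h2] at h1
  have h4 : (((3 : ℕ) : ℝ) - 1) = 2 := by norm_num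
  rw [h4] at h1
  exact h1

end Pool.Agent.Lib.MP_938ce2_ag_u3
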