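import Mathlib
import Pool.Agent.Lib.MP_938ce2_ag_u2.CountBig
import Pool.Agent.Lib.MP_938ce2_ag_h88.M4

/-!
Row TypeOnce: a module which occurs once.
-/

set_option autoImplicit false
set_option linter.unusedSectionVars false

namespace Pool.Agent.Lib.MP_938ce2_ag_u3

open Finset Module MonoidAlgebra
open Pool.Agent.Lib.MP_938ce2_ag_h67 (sg VV ev mkV Orb red kerM)
open Pool.Agent.Lib.MP_938ce2_ag_h60 (CMType)
open Pool.Agent.Lib.MP_938ce2_ag_u2 (Act OddM badC mem_badC dM dE dH)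

variable {G X : Type} [Group G] [Fintype G] [MulAction G X] [Fintype X] [DecidableEq X] {c : G}
  {g : ℕ} [MulAction.IsPretransitive G X]

theorem bad_le_once (hA : Act G X c g) (M : Submodule (MonoidAlgebra ℚ G) (VV ℚ G X))
    (hs : IsSimpleModule (MonoidAlgebra ℚ G) M) (hodd : OddM c M) (h1 : dH M = dE M) :
    ((badC c M).card : ℝ) / 2 ^ g ≤ 1 / 2 ^ dM M := by
  classical
  have h := MP_938ce2_ag_u2.card_orth_big hA (F := ℚ) two_ne_zero (MP_938ce2_ag_h67.code M)
    (fun y hy x => hodd _ ((MP_938ce2_ag_h67.mem_code M y).mp hy) x)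
  rw [MP_938ce2_ag_h67.finrank_code] at h
  have hsub : badC c M ⊆ (Finset.univ.filter fun Φ : Finset X =>
      CMType c Φ ∧ ∀ y ∈ MP_938ce2_ag_h67.code M, ∑ x, (sg Φ x : ℚ) * y x = 0) := by
    intro η hη
    obtain ⟨hcm, M', hM', hv⟩ := (mem_badC c M η).mp hη
    have hMM := MP_938ce2_ag_h88.eq_of_iso_of_finrank M M' h1 hM'
    subst hMM
    rw [Finset.mem_filter]
    refine ⟨Finset.mem_univ _, hcm, ?_⟩
    intro y hy
    exact hv _ ((MP_938ce2_ag_h67.mem_code M' y).mp hy)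
  rw [div_le_div_iff₀ (by positivity) (by positivity), one_mul]
  have h2 := (Nat.mul_le_mul_right (2 ^ finrank ℚ M) (Finset.card_le_card hsub)).trans h
  exact_mod_cast h2

end Pool.Agent.Lib.MP_938ce2_ag_u3
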