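import Mathlib
import Pool.Agent.Lib.MP_938ce2_ag_u3.SmallC
import Pool.Agent.Lib.MP_938ce2_ag_u3.TypeCs
import Pool.Agent.Lib.MP_938ce2_ag_u3.TypeOnce
import Pool.Agent.Lib.MP_938ce2_ag_h85d.FinalU

/-!
Row RegSum: the sum over the modules trivial on the stabilizers.
-/

set_option autoImplicit false
set_option linter.unusedSectionVars false

namespace Pool.Agent.Lib.MP_938ce2_ag_u3

open Finset Module MonoidAlgebra
open Pool.Agent.Lib.MP_938ce2_ag_h67 (sg VV ev mkV Orb red kerM)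
open Pool.Agent.Lib.MP_938ce2_ag_h60 (CMType)
open Pool.Agent.Lib.MP_938ce2_ag_u2 (Act OddM badC mem_badC dM dE dH)

theorem reg_sum : ∀ ε : ℝ, 0 < ε → ∃ g₀ : ℕ, ∀ (G X : Type) [Group G] [Fintype G]
    [MulAction G X] [Fintype X] [DecidableEq X] [MulAction.IsPretransitive G X] (c : G) (g : ℕ),
    Act G X c g → g₀ ≤ g → ∀ (ι : Type) [Fintype ι]
    (S : ι → Submodule (MonoidAlgebra ℚ G) (VV ℚ G X)) (k : ι → ℕ),
    (∀ i, IsSimpleModule (MonoidAlgebra ℚ G) (S i)) → (∀ i, OddM c (S i)) → (∀ i, 1 ≤ k i) →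
    (∀ i, dH (S i) = k i * dE (S i)) → (∀ i, dH (S i) = dM (S i)) →
    (∀ i, (Nat.card (Orb (kerM (S i)) X) / 2).Coprime 6) → (∀ i, dM (S i) ≠ 1) →
    ∑ i, k i * dM (S i) ≤ g → ∑ i, ((badC c (S i)).card : ℝ) / 2 ^ g ≤ ε := by
  intro ε hε
  choose CM _ hCM using small_c
  obtain ⟨g₀, hnum⟩ := Pool.Agent.Lib.MP_938ce2_ag_h85d.U.numericU_holds CM ε hε
  refine ⟨g₀, ?_⟩
  intro G X _ _ _ _ _ _ c g hA hg ι _ S k hS hodd hk hHk hHM hcop h1 hsum
  choose n hnodd hnm hEeven hE2 hM4 using fun i =>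
    reg_num hA (S i) (hS i) (hodd i) (hHM i) (hcop i) (h1 i)
  have hpos : ∀ i, 0 < dM (S i) := fun i => by
    have := hM4 i
    omega
  have hkn : ∀ i, k i = n i := by
    intro i
    have h2 : k i * dE (S i) = n i * dE (S i) := by rw [← hHk i, hHM i, hnm i]
    have h3 := hE2 i
    exact Nat.eq_of_mul_eq_mul_right (by omega) h2
  have hidx : ∀ i, ∃ w, (kerM (S i)).index = 2 * w ∧ w ∣ g ∧ w.Coprime 6 := by
    intro i
    obtain ⟨x₀⟩ : Nonempty X := by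
      rw [← Fintype.card_pos_iff, hA.card]
      have := hA.pos
      omega
    have hfree : ∀ (x : X), ∀ k ∈ kerM (S i), k • x ≠ c • x := fun x k hk =>
      Pool.Agent.Lib.MP_938ce2_ag_u2.c_free hA (S i) (hodd i) (hpos i) x k hk
    obtain ⟨w, hw1, hw2⟩ :=
      Pool.Agent.Lib.MP_938ce2_ag_u2.ThreeCAux.orb_card hA (kerM (S i)) hfree x₀
    refine ⟨w, ?_, hw2, ?_⟩
    · rw [Pool.Agent.Lib.MP_938ce2_ag_u2.index_eq hA (S i) (hpos i) (hHM i), hw1]
    · have h2 := hcop i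
      rwa [hw1, Nat.mul_div_cancel_left _ (by norm_num)] at h2
  have h3K : ∀ i, ¬ 3 ∣ (kerM (S i)).index := by
    intro i hdvd
    obtain ⟨w, hw1, _, hw3⟩ := hidx i
    rw [hw1] at hdvd
    have h2 : 3 ∣ w := by
      rcases (Nat.Prime.dvd_mul Nat.prime_three).mp hdvd with h | h
      · omega
      · exact h
    have h4 := Nat.dvd_gcd h2 (show 3 ∣ 6 by norm_num)
    rw [hw3] at h4
    norm_num at h4
  have hqK : ∀ i (q : ℕ), q.Prime → q ≠ 2 → ¬ q ∣ g → ¬ q ∣ (kerM (S i)).index := by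
    intro i q hq hq2 hqg hdvd
    obtain ⟨w, hw1, hw2, _⟩ := hidx i
    rw [hw1] at hdvd
    rcases (Nat.Prime.dvd_mul hq).mp hdvd with h | h
    · exact hq2 ((Nat.prime_dvd_prime_iff_eq hq Nat.prime_two).mp h)
    · exact hqg (h.trans hw2)
  have hexp : ∀ i, dE (S i) * (n i - k i) + dE (S i) = dE (S i) + dM (S i) - dH (S i) := by
    intro i
    rw [hkn i, Nat.sub_self, mul_zero, zero_add, hHM i, Nat.add_sub_cancel]
  refine hnum ι g (fun i => dM (S i)) k n (fun i => dE (S i))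
    (fun i => ((badC c (S i)).card : ℝ) / 2 ^ g) hg hnm hk (fun i => (hkn i).le) hnodd hE2 hEeven
    hM4 hsum ?_ ?_ ?_ ?_ ?_
  · intro i
    have h2 := bad_le_three hA (S i) (hodd i) (hpos i) (hHM i) (h3K i)
    have h3 : dM (S i) - k i * dE (S i) = 0 := by
      rw [← hHk i, hHM i, Nat.sub_self]
    show ((badC c (S i)).card : ℝ) / 2 ^ g ≤ (1 + 2 * (2 : ℝ) ^ (-((g : ℝ) / dM (S i)))) ^ dM (S i)
      / ((3 : ℝ) ^ (dM (S i) - k i * dE (S i)) * 2 ^ dE (S i))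
    rw [h3, pow_zero, one_mul]
    exact h2
  · intro i hi
    refine bad_le_once hA (S i) (hS i) (hodd i) ?_
    rw [hHk i, hi, one_mul]
  · intro i q hq hq2 hqg _
    show ((badC c (S i)).card : ℝ) / 2 ^ g
      ≤ (1 + ((q : ℝ) - 1) * Real.exp (-(2 * g / (dM (S i) * (q : ℝ) ^ 2)))) ^ dM (S i)
        / ((q : ℝ) - 1) ^ (dE (S i) * (n i - k i) + dE (S i))
    rw [hexp i]
    exact Pool.Agent.Lib.MP_938ce2_ag_u2.bad_le_odd hA (S i) (hodd i) (hpos i) (hHM i).le q hq hq2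
      (hqK i q hq hq2 hqg)
  · intro i q hq hq2 hqg _ hmq
    show ((badC c (S i)).card : ℝ) / 2 ^ g
      ≤ (1 + 3 * Real.exp (-(g / (dM (S i) * (q : ℝ) ^ 2)))) ^ dM (S i)
        / ((q : ℝ) - 1) ^ (dE (S i) * (n i - k i) + dE (S i))
    rw [hexp i]
    exact bad_le_refined hA (S i) (hodd i) (hpos i) (hHM i).le q hq hq2 (hqK i q hq hq2 hqg) hmq
  · intro i M hi hM
    refine hCM M G X c g hA (S i) (hS i) (hodd i) (hHM i) (hcop i) hM.le ?_
    have h2 : dE (S i) * (n i - k i) + dE (S i) = 2 := hi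
    rw [hkn i, Nat.sub_self, mul_zero, zero_add] at h2
    exact h2

end Pool.Agent.Lib.MP_938ce2_ag_u3
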