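import Mathlib
import Pool.Agent.Lib.MP_938ce2_ag_u2.ThreeC
import Pool.Agent.Lib.MP_938ce2_ag_u3.Defs3

/-!
Row ThreeD: the exponent is at least three outside the exceptional quotients.
-/

set_option autoImplicit false
set_option linter.unusedSectionVars false

namespace Pool.Agent.Lib.MP_938ce2_ag_u3

open Finset Module MonoidAlgebra
open Pool.Agent.Lib.MP_938ce2_ag_h67 (sg VV ev mkV Orb red kerM)
open Pool.Agent.Lib.MP_938ce2_ag_h60 (CMType)
open Pool.Agent.Lib.MP_938ce2_ag_u2 (Act OddM badC mem_badC dM dE dH)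

variable {G X : Type} [Group G] [Fintype G] [MulAction G X] [Fintype X] [DecidableEq X] {c : G}
  {g : ℕ} [MulAction.IsPretransitive G X]

open Pool.Agent.Lib.MP_938ce2_ag_u2.ThreeCAux in
theorem three_of_not_exc (hA : Act G X c g) (M : Submodule (MonoidAlgebra ℚ G) (VV ℚ G X))
    (hs : IsSimpleModule (MonoidAlgebra ℚ G) M) (hodd : OddM c M) (hH : 0 < dH M)
    (hlt : dH M < dM M) (hex : ¬ Exc G X c (kerM M)) : 3 ≤ dE M + dM M - dH M := by
  classical
  by_contra hcon
  have hfin : Module.Finite ℚ M := Module.Finite.of_injective (M.subtype.restrictScalars ℚ)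
    Subtype.val_injective
  have hfe : Module.Finite ℚ (M →ₗ[MonoidAlgebra ℚ G] M) :=
    Pool.Agent.Lib.MP_938ce2_ag_h85d.finite_hom
  have hntM : Nontrivial M := IsSimpleModule.nontrivial (MonoidAlgebra ℚ G) M
  have hm : 0 < dM M := Module.finrank_pos (R := ℚ) (M := M)
  have hid : (LinearMap.id : M →ₗ[MonoidAlgebra ℚ G] M) ≠ 0 := by
    obtain ⟨x, hx⟩ := exists_ne (0 : M)
    exact fun h => hx (congrArg (fun f : M →ₗ[MonoidAlgebra ℚ G] M => f x) h)
  have hδ : 0 < dE M := by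
    have : Nontrivial (M →ₗ[MonoidAlgebra ℚ G] M) := ⟨⟨LinearMap.id, 0, hid⟩⟩
    exact Module.finrank_pos (R := ℚ) (M := M →ₗ[MonoidAlgebra ℚ G] M)
  have hE1 : dE M = 1 := by omega
  have hM1 : dM M = dH M + 1 := by omega
  have hidx := Pool.Agent.Lib.MP_938ce2_ag_u2.index_two hA M hm hM1
  have hfree : ∀ (x : X), ∀ k ∈ kerM M, k • x ≠ c • x := fun x k hk => Pool.Agent.Lib.MP_938ce2_ag_u2.c_free hA M hodd hm x k hk
  obtain ⟨x₀⟩ : Nonempty X := by
    rw [← Fintype.card_pos_iff, hA.card]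
    have := hA.pos
    omega
  obtain ⟨w, hw1, hw2⟩ := orb_card hA (kerM M) hfree x₀
  have h6 : w.Coprime 6 := by
    by_contra hw6
    apply hex
    refine ⟨inferInstance, hfree, fun σ h => Pool.Agent.Lib.MP_938ce2_ag_u2.mem_kerM_of_orb M σ h, hidx.le, ?_⟩
    rw [hw1, Nat.mul_div_cancel_left w two_pos]
    exact hw6
  obtain ⟨r, hr1, hr2, hr3⟩ := exists_r (kerM M) x₀ hidx
  have hrank : finrank ℚ (LinearMap.range
      (Pool.Agent.Lib.MP_938ce2_ag_h67.actL M r - 1)) ≤ 1 := by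
    have h3 := Pool.Agent.Lib.MP_938ce2_ag_h67.finrank_range_add_le M r x₀ hr1
    have h4 : dM M = dH M + 1 := hM1
    unfold dM dH at h4
    omega
  have hQ : Nat.card (G ⧸ kerM M) = 4 * w := by
    have h3 : Nat.card (G ⧸ kerM M) = (kerM M).index := rfl
    rw [h3, hidx, hw1]
    ring
  refine Pool.Agent.Lib.MP_938ce2_ag_u2.no_reflection (rho M) (rho_inj M) (c : G ⧸ kerM M) (r : G ⧸ kerM M)
    (by rw [rho_mk]; exact actL_c hA M hodd) (by rw [rho_mk]; exact hrank) ?_ ?_ w hQ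
    h6 ?_
  · intro h3
    exact hr2 ((QuotientGroup.eq_one_iff r).mp h3)
  · rw [← QuotientGroup.mk_mul]
    exact (QuotientGroup.eq_one_iff _).mpr hr3
  · by_contra hnc
    push Not at hnc
    have hcomm : ∀ σ : G, Pool.Agent.Lib.MP_938ce2_ag_h67.actL M σ
        * Pool.Agent.Lib.MP_938ce2_ag_h67.actL M r
        = Pool.Agent.Lib.MP_938ce2_ag_h67.actL M r
        * Pool.Agent.Lib.MP_938ce2_ag_h67.actL M σ := by
      intro σ
      rw [← rho_mk, ← rho_mk, ← map_mul, ← map_mul, hnc]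
    let T : M →ₗ[MonoidAlgebra ℚ G] M :=
      MonoidAlgebra.equivariantOfLinearOfComm (Pool.Agent.Lib.MP_938ce2_ag_h67.actL M r) (by
        intro σ v
        exact (congrArg (fun t : M →ₗ[ℚ] M => t v) (hcomm σ)).symm)
    have hT : ∀ v, T v = Pool.Agent.Lib.MP_938ce2_ag_h67.actL M r v := fun v => rfl
    obtain ⟨z, hz⟩ := (finrank_eq_one_iff_of_nonzero' _ hid).mp hE1 T
    have hz2 : ∀ v : M, z • v = Pool.Agent.Lib.MP_938ce2_ag_h67.actL M r v := by
      intro v
      rw [← hT, ← hz]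
      rfl
    by_cases hz1 : z = 1
    · apply hr2
      rw [← mem_ker_actH]
      apply LinearMap.ext
      intro v
      rw [← hz2, hz1, one_smul]
      rfl
    · have h3 : LinearMap.range (Pool.Agent.Lib.MP_938ce2_ag_h67.actL M r - 1) = ⊤ := by
        rw [LinearMap.range_eq_top]
        intro v
        have hz3 : z - 1 ≠ 0 := sub_ne_zero.mpr hz1
        refine ⟨(z - 1)⁻¹ • v, ?_⟩
        rw [LinearMap.sub_apply, ← hz2, Module.End.one_apply]
        have h5 : z • (z - 1)⁻¹ • v - (z - 1)⁻¹ • v = ((z - 1) * (z - 1)⁻¹) • v := by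
          rw [mul_smul, sub_smul, one_smul]
        rw [h5, mul_inv_cancel₀ hz3, one_smul]
      rw [h3, finrank_top] at hrank
      have h4 : dM M = dH M + 1 := hM1
      unfold dM at h4
      omega

end Pool.Agent.Lib.MP_938ce2_ag_u3
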