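import Mathlib
import Pool.Agent.Lib.MP_938ce2_ag_u3.KerCount
import Pool.Agent.Lib.MP_938ce2_ag_u2.ThreeC

/-!
Row Triv: the number of odd quadratic characters.
-/

set_option autoImplicit false
set_option linter.unusedSectionVars false

namespace Pool.Agent.Lib.MP_938ce2_ag_u3

open Finset Module MonoidAlgebra
open Pool.Agent.Lib.MP_938ce2_ag_h67 (sg VV ev mkV Orb red kerM)
open Pool.Agent.Lib.MP_938ce2_ag_h60 (CMType)
open Pool.Agent.Lib.MP_938ce2_ag_u2 (Act OddM badC mem_badC dM dE dH)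

variable {G X : Type} [Group G] [Fintype G] [MulAction G X] [Fintype X] [DecidableEq X] {c : G}
  {g : ℕ} [MulAction.IsPretransitive G X]

namespace TrivAux

open Pool.Agent.Lib.MP_938ce2_ag_h67 (actL actL_apply actL_mul actL_one actL_pow mem_kerM
  finrank_range_add_le)
open Pool.Agent.Lib.MP_938ce2_ag_u2.ThreeCAux (mem_ker_actH actL_c)

lemma exists_ev_ne (M : Submodule (MonoidAlgebra ℚ G) (VV ℚ G X)) {v : M} (hv : v ≠ 0) :
    ∃ x : X, ev (v : VV ℚ G X) x ≠ 0 := by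
  by_contra hcon
  push Not at hcon
  apply hv
  apply Subtype.ext
  apply Pool.Agent.Lib.MP_938ce2_ag_h67.ev_ext
  intro x
  exact hcon x

lemma eq_one_of_smul (M : Submodule (MonoidAlgebra ℚ G) (VV ℚ G X)) {v : M} (hv : v ≠ 0)
    {a : ℚ} (h : a • v = v) : a = 1 := by
  obtain ⟨x, hx⟩ := exists_ev_ne M hv
  have h1 : a * ev (v : VV ℚ G X) x = ev (v : VV ℚ G X) x :=
    congrArg (fun w : M => ev (w : VV ℚ G X) x) h
  exact (mul_eq_right₀ hx).mp h1

lemma neg_one_smul_one (M : Submodule (MonoidAlgebra ℚ G) (VV ℚ G X)) :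
    (-1 : ℚ) • (1 : M →ₗ[ℚ] M) = -1 := by
  apply LinearMap.ext
  intro w
  apply Subtype.ext
  apply Pool.Agent.Lib.MP_938ce2_ag_h67.ev_ext
  intro x
  show (-1 : ℚ) * ev (w : VV ℚ G X) x = - ev (w : VV ℚ G X) x
  ring

/-- on a module of dimension one the group acts by signs -/
lemma actL_sign (M : Submodule (MonoidAlgebra ℚ G) (VV ℚ G X)) (h1 : dM M = 1) (σ : G) :
    actL M σ = 1 ∨ actL M σ = -1 := by
  obtain ⟨v, hv, hsp⟩ := finrank_eq_one_iff'.mp h1
  obtain ⟨z, hz⟩ := hsp (actL M σ v)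
  have hT : actL M σ = z • (1 : M →ₗ[ℚ] M) := by
    apply LinearMap.ext
    intro w
    obtain ⟨a, rfl⟩ := hsp w
    rw [map_smul, ← hz, LinearMap.smul_apply, Module.End.one_apply, smul_comm]
  have hpow : (z ^ orderOf σ) • (1 : M →ₗ[ℚ] M) = 1 := by
    have h2 : actL M σ ^ orderOf σ = 1 := by
      rw [← actL_pow, pow_orderOf_eq_one, actL_one]
    rw [hT, smul_pow, one_pow] at h2
    exact h2
  have hz1 : z ^ orderOf σ = 1 :=
    eq_one_of_smul M hv (congrArg (fun t : M →ₗ[ℚ] M => t v) hpow)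
  have habs : |z| = 1 := by
    have h2 : |z| ^ orderOf σ = 1 := by rw [← abs_pow, hz1, abs_one]
    exact (pow_eq_one_iff_of_nonneg (abs_nonneg _) (orderOf_pos σ).ne').mp h2
  rcases eq_or_eq_neg_of_abs_eq habs with h | h
  · left
    rw [hT, h, one_smul]
  · right
    rw [hT, h, neg_one_smul_one]

lemma one_ne_neg (M : Submodule (MonoidAlgebra ℚ G) (VV ℚ G X)) (h1 : dM M = 1) :
    (1 : M →ₗ[ℚ] M) ≠ -1 := by
  obtain ⟨v, hv, _⟩ := finrank_eq_one_iff'.mp h1
  intro h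
  rw [← neg_one_smul_one] at h
  have h2 : (-1 : ℚ) • v = v := (congrArg (fun t : M →ₗ[ℚ] M => t v) h).symm
  have h3 := eq_one_of_smul M hv h2
  norm_num at h3

lemma c_notMem (hA : Act G X c g) (M : Submodule (MonoidAlgebra ℚ G) (VV ℚ G X))
    (hodd : OddM c M) (h1 : dM M = 1) : c ∉ kerM M := by
  rw [← mem_ker_actH, actL_c hA M hodd]
  exact fun h => one_ne_neg M h1 h.symm

lemma index_ker (hA : Act G X c g) (M : Submodule (MonoidAlgebra ℚ G) (VV ℚ G X))
    (hodd : OddM c M) (h1 : dM M = 1) : (kerM M).index = 2 := by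
  rw [Subgroup.index_eq_two_iff_exists_notMem_and]
  refine ⟨c, c_notMem hA M hodd h1, fun b => ?_⟩
  rcases actL_sign M h1 b with h | h
  · exact Or.inr ((mem_ker_actH M b).mp h)
  · left
    rw [← mem_ker_actH, actL_mul, h, actL_c hA M hodd]
    apply LinearMap.ext
    intro w
    show -(-w) = w
    exact neg_neg w

lemma dH_eq (M : Submodule (MonoidAlgebra ℚ G) (VV ℚ G X)) (hne : Nonempty X)
    (h1 : dM M = 1) : dH M = dM M := by
  apply le_antisymm
  · exact Pool.Agent.Lib.MP_938ce2_ag_h85d.finrank_hom_le M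
  · rw [h1]
    have hfin : Module.Finite ℚ M := Module.Finite.of_injective (M.subtype.restrictScalars ℚ)
      Subtype.val_injective
    have hfH : Module.Finite ℚ (M →ₗ[MonoidAlgebra ℚ G] VV ℚ G X) :=
      Pool.Agent.Lib.MP_938ce2_ag_h85d.finite_hom
    obtain ⟨v, hv, _⟩ := finrank_eq_one_iff'.mp h1
    have hnt : Nontrivial (M →ₗ[MonoidAlgebra ℚ G] VV ℚ G X) := ⟨⟨M.subtype, 0, fun h => hv (by
      apply Subtype.ext
      exact congrArg (fun f : M →ₗ[MonoidAlgebra ℚ G] VV ℚ G X => f v) h)⟩⟩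
    exact Module.finrank_pos (R := ℚ) (M := M →ₗ[MonoidAlgebra ℚ G] VV ℚ G X)

lemma stab_mem (M : Submodule (MonoidAlgebra ℚ G) (VV ℚ G X)) (h1 : dM M = 1) (x : X) (τ : G)
    (hτ : τ • x = x) : τ ∈ kerM M := by
  have hfin : Module.Finite ℚ M := Module.Finite.of_injective (M.subtype.restrictScalars ℚ)
    Subtype.val_injective
  have h2 := finrank_range_add_le M τ x hτ
  have h3 := dH_eq M ⟨x⟩ h1
  have h4 : finrank ℚ (LinearMap.range (actL M τ - 1)) = 0 := by
    unfold dH dM at h3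
    omega
  rw [Submodule.finrank_eq_zero, LinearMap.range_eq_bot] at h4
  rw [← mem_ker_actH]
  exact sub_eq_zero.mp h4

/-- the number of orbits of a normal subgroup containing the stabilizers -/
lemma card_orb (K : Subgroup G) [K.Normal] (x₀ : X) (h : ∀ τ : G, τ • x₀ = x₀ → τ ∈ K) :
    Nat.card (Orb K X) = K.index := by
  have htr := Pool.Agent.Lib.MP_938ce2_ag_u2.ThreeCAux.orb_trans (X := X) K
  rw [← MulAction.index_stabilizer_of_transitive G (Orb.mk K x₀)]
  congr 1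
  apply le_antisymm
  · intro σ hσ
    rw [MulAction.mem_stabilizer_iff, Pool.Agent.Lib.MP_938ce2_ag_h67.Orb.smul_mk,
      Pool.Agent.Lib.MP_938ce2_ag_h67.Orb.mk_eq] at hσ
    obtain ⟨k, hk, hkx⟩ := hσ
    have h2 : k⁻¹ * σ ∈ K := h _ (by rw [mul_smul, ← hkx, inv_smul_smul])
    have h3 := K.mul_mem hk h2
    rwa [mul_inv_cancel_left] at h3
  · intro k hk
    rw [MulAction.mem_stabilizer_iff, Pool.Agent.Lib.MP_938ce2_ag_h67.Orb.smul_mk,
      Pool.Agent.Lib.MP_938ce2_ag_h67.Orb.mk_eq]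
    exact ⟨k, hk, rfl⟩

lemma index_inf (A B : Subgroup G) (hA : A.index = 2) (hB : B.index = 2) (hne : A ≠ B) :
    (A ⊓ B).index = 4 := by
  have h1 : ¬ A ≤ B := by
    intro hle
    apply hne
    have h2 := Subgroup.relIndex_mul_index hle
    rw [hA, hB] at h2
    have h3 : A.relIndex B = 1 := by omega
    exact le_antisymm hle (Subgroup.relIndex_eq_one.mp h3)
  obtain ⟨a, haA, haB⟩ := SetLike.not_le_iff_exists.mp h1
  have h2 : B.relIndex A = 2 := by
    rw [Subgroup.relIndex_eq_two_iff_exists_notMem_and]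
    refine ⟨a, haA, haB, fun b _ => ?_⟩
    rw [Subgroup.mul_mem_iff_of_index_two hB]
    tauto
  have h3 := Subgroup.relIndex_mul_index (inf_le_left : A ⊓ B ≤ A)
  rw [Subgroup.inf_relIndex_left, h2, hA] at h3
  omega

lemma le_of_inf_eq {A B B' : Subgroup G} (hA : A.index = 2) (hB : B.index = 2)
    (hB' : B'.index = 2) (hcA : c ∉ A) (hcB : c ∉ B) (hcB' : c ∉ B')
    (h : A ⊓ B = A ⊓ B') : B ≤ B' := by
  intro σ hσ
  by_cases h1 : σ ∈ A
  · have h2 : σ ∈ A ⊓ B := ⟨h1, hσ⟩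
    rw [h] at h2
    exact h2.2
  · by_contra hσB'
    have h2 : σ * c ∈ A := (Subgroup.mul_mem_iff_of_index_two hA).mpr (by tauto)
    have h3 : σ * c ∈ B' := (Subgroup.mul_mem_iff_of_index_two hB').mpr (by tauto)
    have h4 : σ * c ∈ A ⊓ B' := ⟨h2, h3⟩
    rw [← h] at h4
    have h5 := (Subgroup.mul_mem_iff_of_index_two hB).mp h4.2
    tauto

end TrivAux

open TrivAux in
theorem triv_orb (hA : Act G X c g) (M : Submodule (MonoidAlgebra ℚ G) (VV ℚ G X))
    (hodd : OddM c M) (h1 : dM M = 1) :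
    Nat.card (Orb (kerM M) X) = 2 ∧ (kerM M).index = 2 := by
  obtain ⟨x₀⟩ : Nonempty X := by
    rw [← Fintype.card_pos_iff, hA.card]
    have := hA.pos
    omega
  have h2 := index_ker hA M hodd h1
  exact ⟨(card_orb (kerM M) x₀ (fun τ hτ => stab_mem M h1 x₀ τ hτ)).trans h2, h2⟩

open TrivAux in
open Classical in
theorem triv_count (hA : Act G X c g) {ι : Type} [Fintype ι]
    (S : ι → Submodule (MonoidAlgebra ℚ G) (VV ℚ G X))
    (hS : ∀ i, IsSimpleModule (MonoidAlgebra ℚ G) (S i)) (hodd : ∀ i, OddM c (S i))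
    (hinj : ∀ i j, Nonempty (S i ≃ₗ[MonoidAlgebra ℚ G] S j) → i = j)
    (h1 : ∀ i, dM (S i) = 1) (s : Finset (Subgroup G)) (hs : ∀ K, Exc G X c K → K ∈ s) :
    Fintype.card ι ≤ 1 + (s.filter fun K => Nat.card (Orb K X) = 4).card := by
  obtain ⟨x₀⟩ : Nonempty X := by
    rw [← Fintype.card_pos_iff, hA.card]
    have := hA.pos
    omega
  have hidx : ∀ i, (kerM (S i)).index = 2 := fun i => index_ker hA (S i) (hodd i) (h1 i)
  have hc : ∀ i, c ∉ kerM (S i) := fun i => c_notMem hA (S i) (hodd i) (h1 i)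
  have hstab : ∀ i (τ : G), τ • x₀ = x₀ → τ ∈ kerM (S i) := fun i τ hτ =>
    stab_mem (S i) (h1 i) x₀ τ hτ
  have hkinj : Function.Injective fun i => kerM (S i) := by
    intro i j hij
    have h2 := ker_count hA S hS hodd hinj (kerM (S i))
    rw [card_orb (kerM (S i)) x₀ (hstab i), hidx i] at h2
    have h3 : Nat.card {l // kerM (S l) = kerM (S i)} ≤ 1 := by omega
    have h4 := Finite.card_le_one_iff_subsingleton.mp h3
    have h5 : (⟨j, hij.symm⟩ : {l // kerM (S l) = kerM (S i)}) = ⟨i, rfl⟩ := Subsingleton.elim _ _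
    exact (congrArg Subtype.val h5).symm
  rcases isEmpty_or_nonempty ι with he | ⟨⟨i₀⟩⟩
  · rw [Fintype.card_eq_zero]
    exact Nat.zero_le _
  have hcard : Fintype.card ι = 1 + (Finset.univ.erase i₀).card := by
    rw [Finset.card_erase_of_mem (Finset.mem_univ _), Finset.card_univ]
    have : 0 < Fintype.card ι := Fintype.card_pos_iff.mpr ⟨i₀⟩
    omega
  rw [hcard]
  refine Nat.add_le_add_left ?_ 1
  refine Finset.card_le_card_of_injOn (fun j => kerM (S i₀) ⊓ kerM (S j)) ?_ ?_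
  · intro j hj
    have hji : j ≠ i₀ := (Finset.mem_erase.mp hj).1
    have hne : kerM (S i₀) ≠ kerM (S j) := fun h => hji (hkinj h).symm
    have h4 : (kerM (S i₀) ⊓ kerM (S j)).index = 4 := index_inf _ _ (hidx i₀) (hidx j) hne
    have h5 : Nat.card (Orb (kerM (S i₀) ⊓ kerM (S j)) X) = 4 := by
      rw [card_orb (kerM (S i₀) ⊓ kerM (S j)) x₀
        (fun τ hτ => Subgroup.mem_inf.mpr ⟨hstab i₀ τ hτ, hstab j τ hτ⟩), h4]
    show kerM (S i₀) ⊓ kerM (S j) ∈ (s.filter fun K => Nat.card (Orb K X) = 4 : Finset _)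
    rw [Finset.mem_filter]
    refine ⟨hs _ ⟨inferInstance, ?_, ?_, ?_, ?_⟩, h5⟩
    · intro x k hk
      exact Pool.Agent.Lib.MP_938ce2_ag_u2.c_free hA (S i₀) (hodd i₀) (by rw [h1]; norm_num) x k
        hk.1
    · intro σ hσ
      exact ⟨Pool.Agent.Lib.MP_938ce2_ag_u2.mem_kerM_of_orb (S i₀) σ fun x =>
          let ⟨k, hk, hkx⟩ := hσ x
          ⟨k, hk.1, hkx⟩,
        Pool.Agent.Lib.MP_938ce2_ag_u2.mem_kerM_of_orb (S j) σ fun x =>
          let ⟨k, hk, hkx⟩ := hσ x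
          ⟨k, hk.2, hkx⟩⟩
    · rw [h4, h5]
      norm_num
    · rw [h5]
      norm_num
  · intro j _ j' _ hjj
    apply hkinj
    exact le_antisymm
      (le_of_inf_eq (hidx i₀) (hidx j) (hidx j') (hc i₀) (hc j) (hc j') hjj)
      (le_of_inf_eq (hidx i₀) (hidx j') (hidx j) (hc i₀) (hc j') (hc j) hjj.symm)

end Pool.Agent.Lib.MP_938ce2_ag_u3
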