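import Mathlib
import Pool.Agent.Lib.MP_938ce2_ag_u2.Main
import Pool.Agent.Lib.MP_938ce2_ag_u3.ThreeD
import Pool.Agent.Lib.MP_938ce2_ag_u3.OddNum
import Pool.Agent.Lib.MP_938ce2_ag_u3.KerCount
import Pool.Agent.Lib.MP_938ce2_ag_u3.Triv
import Pool.Agent.Lib.MP_938ce2_ag_u3.RegSum
import Pool.Agent.Lib.MP_938ce2_ag_u3.NumP

/-!
The count for `G`-sets.
-/

set_option autoImplicit false
set_option linter.unusedSectionVars false

namespace Pool.Agent.Lib.MP_938ce2_ag_u3

open Finset Module MonoidAlgebra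
open Pool.Agent.Lib.MP_938ce2_ag_h67 (sg VV ev mkV Orb red kerM)
open Pool.Agent.Lib.MP_938ce2_ag_h60 (CMType)
open Pool.Agent.Lib.MP_938ce2_ag_u2 (Act OddM badC mem_badC dM dE dH)
open Pool.Agent.Lib.MP_938ce2_ag_h60 (Nondeg GeneratedByDivisors generatedByDivisors_of_nondeg)
open Pool.Agent.Lib.MP_938ce2_ag_h85d (finrank_hom_le finite_hom)
open Pool.Agent.Lib.MP_938ce2_ag_u2 (Data numericV numbers bad_le_big bad_le_odd
  exists_simple_of_deg odd_of_iso index_eq c_free mem_kerM_of_orb card_cm_all)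

section

variable {G X : Type} [Group G] [Fintype G] [MulAction G X] [Fintype X] [DecidableEq X] {c : G}
  {g : ℕ} [MulAction.IsPretransitive G X]

theorem dM_pos (M : Submodule (MonoidAlgebra ℚ G) (VV ℚ G X))
    (hs : IsSimpleModule (MonoidAlgebra ℚ G) M) : 0 < dM M := by
  have hntM : Nontrivial M := IsSimpleModule.nontrivial (MonoidAlgebra ℚ G) M
  have hfin : Module.Finite ℚ M := Module.Finite.of_injective (M.subtype.restrictScalars ℚ)
    Subtype.val_injective
  exact Module.finrank_pos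

theorem dE_pos (M : Submodule (MonoidAlgebra ℚ G) (VV ℚ G X))
    (hs : IsSimpleModule (MonoidAlgebra ℚ G) M) : 0 < dE M := by
  have hntM : Nontrivial M := IsSimpleModule.nontrivial (MonoidAlgebra ℚ G) M
  have hfin : Module.Finite ℚ M := Module.Finite.of_injective (M.subtype.restrictScalars ℚ)
    Subtype.val_injective
  have hfe : Module.Finite ℚ (M →ₗ[MonoidAlgebra ℚ G] M) := finite_hom
  have : Nontrivial (M →ₗ[MonoidAlgebra ℚ G] M) := by
    obtain ⟨x, hx⟩ := exists_ne (0 : M)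
    exact ⟨⟨LinearMap.id, 0, fun h => hx
      (congrArg (fun f : M →ₗ[MonoidAlgebra ℚ G] M => f x) h)⟩⟩
  exact Module.finrank_pos (R := ℚ) (M := M →ₗ[MonoidAlgebra ℚ G] M)

/-- the data of a simple odd module outside the exceptional quotients -/
theorem exists_data3 (hA : Act G X c g) (M : Submodule (MonoidAlgebra ℚ G) (VV ℚ G X))
    (hs : IsSimpleModule (MonoidAlgebra ℚ G) M) (hodd : OddM c M) (k : ℕ) (hk1 : 1 ≤ k)
    (hk : dH M = k * dE M) (hlt : dH M < dM M) (hex : ¬ Exc G X c (kerM M)) :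
    ∃ n κ s : ℕ, Data g (dM M) k (dE M) (dH M) (kerM M).index n κ s
      (((badC c M).card : ℝ) / 2 ^ g) := by
  have hm : 0 < dM M := dM_pos M hs
  have hd : 0 < dE M := dE_pos M hs
  have hH : 0 < dH M := by
    rw [hk]
    exact Nat.mul_pos hk1 hd
  obtain ⟨n, κ, s, h1, h2, h3, h4, h5, h6, h7, h8, h9⟩ := numbers hA M hs hodd k hk
  refine ⟨n, κ, s, ⟨hk1, hd, hk, hlt, three_of_not_exc hA M hs hodd hH hlt hex, ?_, ?_, ?_, h7,
    h1, h2, h3, h4, h5, h6, h8, h9⟩⟩
  · have hg := hA.pos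
    obtain ⟨q, hq, hq1, hq2⟩ := Nat.exists_prime_lt_and_le_two_mul (2 * g) (by omega)
    refine (bad_le_big hA M hodd hm q hq hq1).trans ?_
    apply div_le_div_of_nonneg_right _ (by positivity)
    apply pow_le_pow_left₀ (Nat.cast_nonneg _)
    have : ((q : ℕ) : ℝ) ≤ ((2 * (2 * g) : ℕ) : ℝ) := by exact_mod_cast hq2
    refine this.trans (le_of_eq ?_)
    push_cast
    ring
  · intro q hq hq2 hqo
    exact bad_le_odd hA M hodd hm hlt.le q hq hq2 hqo
  · exact Nat.one_le_iff_ne_zero.mpr Subgroup.index_ne_zero_of_finite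

theorem bad_le_one (hA : Act G X c g) (M : Submodule (MonoidAlgebra ℚ G) (VV ℚ G X)) :
    ((badC c M).card : ℝ) / 2 ^ g ≤ 1 := by
  classical
  rw [div_le_one (by positivity)]
  have h1 := card_cm_all hA
  rw [Nat.card_eq_fintype_card, Fintype.card_subtype] at h1
  have h2 : badC c M ⊆ Finset.univ.filter fun Φ : Finset X => CMType c Φ := by
    intro Φ hΦ
    rw [Finset.mem_filter]
    exact ⟨Finset.mem_univ _, ((mem_badC c M Φ).mp hΦ).1⟩
  have h3 := Finset.card_le_card h2
  have h4 : (Finset.univ.filter fun Φ : Finset X => CMType c Φ).card = 2 ^ g := by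
    rw [← h1]
  rw [h4] at h3
  exact_mod_cast h3

theorem exc_kerM (hA : Act G X c g) (M : Submodule (MonoidAlgebra ℚ G) (VV ℚ G X))
    (hs : IsSimpleModule (MonoidAlgebra ℚ G) M) (hodd : OddM c M)
    (h1 : (kerM M).index ≤ 2 * Nat.card (Orb (kerM M) X))
    (h2 : ¬ Exc G X c (kerM M)) : (Nat.card (Orb (kerM M) X) / 2).Coprime 6 := by
  by_contra h
  exact h2 ⟨inferInstance, fun x k hk => c_free hA M hodd (dM_pos M hs) x k hk,
    fun σ hσ => mem_kerM_of_orb M σ hσ, h1, h⟩

end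

theorem main_G3 : ∀ ε : ℝ, 0 < ε → ∃ g₀ : ℕ, ∀ (G X : Type) [Group G] [Fintype G]
    [MulAction G X] [Fintype X] [MulAction.IsPretransitive G X] (c : G) (g : ℕ),
    Act G X c g → g₀ ≤ g → ∀ s : Finset (Subgroup G), (∀ K, Exc G X c K → K ∈ s) →
    (Nat.card {Φ : Finset X // CMType c Φ ∧ ¬ GeneratedByDivisors G Φ} : ℝ)
      ≤ ε * (1 + (∑ K ∈ s, (Nat.card (Orb K X) : ℝ) ^ 2) / (g : ℝ) ^ (1 / 4 : ℝ)) * 2 ^ g := by
  intro ε hε
  obtain ⟨g₁, hnum⟩ := numericV (ε / 8) (by positivity)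
  obtain ⟨g₂, hreg⟩ := reg_sum (ε / 8) (by positivity)
  obtain ⟨g₃, hP⟩ := num_P (ε / 8) (by positivity)
  refine ⟨max g₁ (max g₂ g₃), ?_⟩
  intro G X _ _ _ _ _ c g hA hg s hs
  classical
  have hg1 : g₁ ≤ g := (le_max_left _ _).trans hg
  have hg2 : g₂ ≤ g := ((le_max_left _ _).trans (le_max_right _ _)).trans hg
  have hg3 : g₃ ≤ g := ((le_max_right _ _).trans (le_max_right _ _)).trans hg
  have hne : Nonempty X := by
    rw [← Fintype.card_pos_iff, hA.card]
    have := hA.pos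
    omega
  obtain ⟨ι, _, S, k, hS, hodd, hall, hinj, hk1, hkδ, hsum⟩ := odd_numbers hA
  have hgR : (1 : ℝ) ≤ g := by exact_mod_cast hA.pos
  set Q : ℝ := (g : ℝ) ^ (1 / 4 : ℝ) with hQ
  have hQ1 : 1 ≤ Q := Real.one_le_rpow hgR (by norm_num)
  have hQ0 : 0 < Q := by linarith
  let N : ι → ℝ := fun i => ((badC c (S i)).card : ℝ) / 2 ^ g
  let b : ι → ℕ := fun i => Nat.card (Orb (kerM (S i)) X)
  have hN0 : ∀ i, 0 ≤ N i := fun i => by positivity
  have hmb : ∀ i, 2 * dM (S i) ≤ b i := fun i => dM_le_orb hA (S i) (hodd i)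
  have hHM : ∀ i, dH (S i) ≤ dM (S i) := fun i => finrank_hom_le (S i)
  have hNP : ∀ i, (kerM (S i)).index ≤ 2 * b i → N i ≤ ε / 8 * b i / Q := by
    intro i hi
    have h1 := dM_pos (S i) (hS i)
    have h2 := hmb i
    have h3 := dE_pos (S i) (hS i)
    have h4 := hHM i
    exact hP g (dM (S i)) (dE (S i) + dM (S i) - dH (S i)) (kerM (S i)).index (b i) (N i) hg3 h1
      (by omega) (Nat.one_le_iff_ne_zero.mpr Subgroup.index_ne_zero_of_finite) hi (by omega)
      (bad_le_one hA (S i)) (fun q hq hq2 hqo => bad_le_odd hA (S i) (hodd i) h1 h4 q hq hq2 hqo)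
  -- the four classes
  obtain ⟨pE, hpE⟩ : ∃ p : ι → Prop, ∀ i, p i ↔ Exc G X c (kerM (S i)) :=
    ⟨_, fun _ => Iff.rfl⟩
  obtain ⟨pA, hpA⟩ : ∃ p : ι → Prop, ∀ i, p i ↔
      (¬ Exc G X c (kerM (S i)) ∧ dH (S i) < dM (S i)) := ⟨_, fun _ => Iff.rfl⟩
  obtain ⟨pB, hpB⟩ : ∃ p : ι → Prop, ∀ i, p i ↔
      (¬ Exc G X c (kerM (S i)) ∧ dH (S i) = dM (S i) ∧ dM (S i) ≠ 1) := ⟨_, fun _ => Iff.rfl⟩
  obtain ⟨pT, hpT⟩ : ∃ p : ι → Prop, ∀ i, p i ↔
      (¬ Exc G X c (kerM (S i)) ∧ dH (S i) = dM (S i) ∧ dM (S i) = 1) := ⟨_, fun _ => Iff.rfl⟩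
  have hsub : ∀ (p : ι → Prop), ∑ i : {i // p i}, k i.1 * dM (S i.1) ≤ g := by
    intro p
    have h1 : ∑ i : {i // p i}, k i.1 * dM (S i.1)
        = ∑ i ∈ (Finset.univ : Finset {i // p i}).map ⟨Subtype.val, Subtype.val_injective⟩,
          k i * dM (S i) := by
      rw [Finset.sum_map]
      rfl
    refine le_trans (le_of_eq h1) (le_trans ?_ hsum)
    exact Finset.sum_le_univ_sum_of_nonneg (fun _ => Nat.zero_le _)
  -- class A
  have hAsum : ∑ i : {i // pA i}, N i.1 ≤ ε / 8 := by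
    have hdata : ∀ i : {i // pA i}, ∃ n κ s : ℕ, Data g (dM (S i.1)) (k i.1) (dE (S i.1))
        (dH (S i.1)) (kerM (S i.1)).index n κ s (N i.1) := by
      intro i
      have h := (hpA i.1).mp i.2
      exact exists_data3 hA (S i.1) (hS i.1) (hodd i.1) (k i.1) (hk1 i.1) (hkδ i.1) h.2 h.1
    choose n κ s' hdata using hdata
    exact hnum {i // pA i} g (fun i => dM (S i.1)) (fun i => k i.1) (fun i => dE (S i.1))
      (fun i => dH (S i.1)) (fun i => (kerM (S i.1)).index) n κ s' (fun i => N i.1) hg1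
      ((hsub pA).trans (show g ≤ 2 * g by omega)) hdata
  -- class B
  have hBsum : ∑ i : {i // pB i}, N i.1 ≤ ε / 8 := by
    refine hreg G X c g hA hg2 {i // pB i} (fun i => S i.1) (fun i => k i.1) (fun i => hS i.1)
      (fun i => hodd i.1) (fun i => hk1 i.1) (fun i => hkδ i.1)
      (fun i => ((hpB i.1).mp i.2).2.1) (fun i => ?_)
      (fun i => ((hpB i.1).mp i.2).2.2) (hsub pB)
    have h := (hpB i.1).mp i.2
    refine exc_kerM hA (S i.1) (hS i.1) (hodd i.1) ?_ h.1
    rw [index_eq hA (S i.1) (dM_pos _ (hS i.1)) h.2.1]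
    omega
  -- class T
  have hTcard : Fintype.card {i // pT i} ≤ 1 + (s.filter fun K => Nat.card (Orb K X) = 4).card := by
    have h1 := triv_count hA (ι := {i // pT i}) (fun i => S i.1) (fun i => hS i.1)
      (fun i => hodd i.1) (fun i j h => Subtype.ext (hinj i.1 j.1 h)) (fun i => ((hpT i.1).mp i.2).2.2) s hs
    exact h1
  have hTN : ∀ i : {i // pT i}, N i.1 ≤ ε / 4 / Q := by
    intro i
    obtain ⟨h1, h2⟩ := triv_orb hA (S i.1) (hodd i.1) ((hpT i.1).mp i.2).2.2
    have h3 := hNP i.1 (by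
      show (kerM (S i.1)).index ≤ 2 * Nat.card (Orb (kerM (S i.1)) X)
      rw [h1, h2]
      norm_num)
    have h4 : (b i.1 : ℝ) = 2 := by
      have : b i.1 = 2 := h1
      rw [this]
      norm_num
    rw [h4] at h3
    refine h3.trans (le_of_eq ?_)
    ring
  have hTsum : ∑ i : {i // pT i}, N i.1
      ≤ (1 + ((s.filter fun K => Nat.card (Orb K X) = 4).card : ℝ)) * (ε / 4 / Q) := by
    calc ∑ i : {i // pT i}, N i.1 ≤ ∑ _i : {i // pT i}, ε / 4 / Q :=
          Finset.sum_le_sum fun i _ => hTN i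
      _ = Fintype.card {i // pT i} * (ε / 4 / Q) := by
          rw [Finset.sum_const, Finset.card_univ, nsmul_eq_mul]
      _ ≤ (1 + ((s.filter fun K => Nat.card (Orb K X) = 4).card : ℝ)) * (ε / 4 / Q) := by
          apply mul_le_mul_of_nonneg_right _ (by positivity)
          exact_mod_cast hTcard
  -- class E
  have hEsum : ∑ i ∈ Finset.univ.filter pE, N i
      ≤ ε / 8 / Q * ∑ K ∈ s, (Nat.card (Orb K X) : ℝ) ^ 2 := by
    have h1 : ∀ i ∈ Finset.univ.filter pE, kerM (S i) ∈ s := fun i hi =>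
      hs _ ((hpE i).mp (Finset.mem_filter.mp hi).2)
    rw [← Finset.sum_fiberwise_of_maps_to h1, Finset.mul_sum]
    refine Finset.sum_le_sum fun K _ => ?_
    have h2 : ∀ i ∈ (Finset.univ.filter pE).filter (fun i => kerM (S i) = K),
        N i ≤ ε / 8 * (Nat.card (Orb K X)) / Q := by
      intro i hi
      obtain ⟨hi1, hi2⟩ := Finset.mem_filter.mp hi
      have h3 := hNP i ((hpE i).mp (Finset.mem_filter.mp hi1).2).2.2.2.1
      rw [← hi2]
      exact h3
    have h3 : (((Finset.univ.filter pE).filter (fun i => kerM (S i) = K)).card : ℝ)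
        ≤ Nat.card (Orb K X) := by
      have h4 := ker_count hA S hS hodd hinj K
      have h5 : ((Finset.univ.filter pE).filter (fun i => kerM (S i) = K)).card
          ≤ Nat.card {i // kerM (S i) = K} := by
        rw [Nat.card_eq_fintype_card, Fintype.card_subtype]
        refine Finset.card_le_card fun i hi => ?_
        rw [Finset.mem_filter]
        exact ⟨Finset.mem_univ _, (Finset.mem_filter.mp hi).2⟩
      exact_mod_cast (show _ ≤ Nat.card (Orb K X) by omega)
    calc _ ≤ ∑ _i ∈ (Finset.univ.filter pE).filter (fun i => kerM (S i) = K),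
          ε / 8 * (Nat.card (Orb K X)) / Q := Finset.sum_le_sum h2
      _ = ((Finset.univ.filter pE).filter (fun i => kerM (S i) = K)).card
          * (ε / 8 * (Nat.card (Orb K X)) / Q) := by
          rw [Finset.sum_const, nsmul_eq_mul]
      _ ≤ Nat.card (Orb K X) * (ε / 8 * (Nat.card (Orb K X)) / Q) :=
          mul_le_mul_of_nonneg_right h3 (by positivity)
      _ = ε / 8 / Q * (Nat.card (Orb K X) : ℝ) ^ 2 := by ring
  -- all classes
  have hcast : ∀ p : ι → Prop, ∑ i ∈ Finset.univ.filter p, N i = ∑ i : {i // p i}, N i.1 := by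
    intro p
    rw [Finset.sum_subtype (Finset.univ.filter p) (p := p) (fun i => by simp)]
  have htot : ∑ i, N i ≤ ∑ i ∈ Finset.univ.filter pE, N i + ∑ i ∈ Finset.univ.filter pA, N i
      + ∑ i ∈ Finset.univ.filter pB, N i + ∑ i ∈ Finset.univ.filter pT, N i := by
    simp only [Finset.sum_filter, ← Finset.sum_add_distrib]
    refine Finset.sum_le_sum fun i _ => ?_
    have h0 := hN0 i
    by_cases h1' : pE i
    · have h1 := h1'
      have h2 : (if pE i then N i else 0) = N i := if_pos h1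
      have h3 : 0 ≤ (if pA i then N i else 0) := by split_ifs <;> [exact h0; exact le_refl _]
      have h4 : 0 ≤ (if pB i then N i else 0) := by split_ifs <;> [exact h0; exact le_refl _]
      have h5 : 0 ≤ (if pT i then N i else 0) := by split_ifs <;> [exact h0; exact le_refl _]
      linarith
    · have h2 : 0 ≤ (if pE i then N i else 0) := by rw [if_neg h1']
      have h1 : ¬ Exc G X c (kerM (S i)) := fun h => h1' ((hpE i).mpr h)
      rcases lt_or_eq_of_le (hHM i) with h6 | h6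
      · have h3 : (if pA i then N i else 0) = N i := if_pos ((hpA i).mpr ⟨h1, h6⟩)
        have h4 : 0 ≤ (if pB i then N i else 0) := by split_ifs <;> [exact h0; exact le_refl _]
        have h5 : 0 ≤ (if pT i then N i else 0) := by split_ifs <;> [exact h0; exact le_refl _]
        linarith
      · have h3 : 0 ≤ (if pA i then N i else 0) := by split_ifs <;> [exact h0; exact le_refl _]
        by_cases h7 : dM (S i) = 1
        · have h4 : 0 ≤ (if pB i then N i else 0) := by split_ifs <;> [exact h0; exact le_refl _]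
          have h5 : (if pT i then N i else 0) = N i :=
            if_pos ((hpT i).mpr ⟨h1, h6, h7⟩)
          linarith
        · have h4 : (if pB i then N i else 0) = N i :=
            if_pos ((hpB i).mpr ⟨h1, h6, h7⟩)
          have h5 : 0 ≤ (if pT i then N i else 0) := by split_ifs <;> [exact h0; exact le_refl _]
          linarith
  set TT : ℝ := ∑ K ∈ s, (Nat.card (Orb K X) : ℝ) ^ 2 with hTT
  have hs4 : ((s.filter fun K => Nat.card (Orb K X) = 4).card : ℝ) ≤ TT := by
    rw [hTT, ← mul_one ((s.filter fun K => Nat.card (Orb K X) = 4).card : ℝ), ← nsmul_eq_mul,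
      ← Finset.sum_const]
    refine le_trans (Finset.sum_le_sum (g := fun K => (Nat.card (Orb K X) : ℝ) ^ 2)
      fun K hK => ?_) (Finset.sum_le_sum_of_subset_of_nonneg (Finset.filter_subset _ _)
      fun K _ _ => by positivity)
    rw [(Finset.mem_filter.mp hK).2]
    norm_num
  have hT0 : 0 ≤ TT := by positivity
  have hfinal : ∑ i, N i ≤ ε * (1 + TT / Q) := by
    rw [hcast pA, hcast pB, hcast pT] at htot
    have h1 : (1 + ((s.filter fun K => Nat.card (Orb K X) = 4).card : ℝ)) * (ε / 4 / Q)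
        ≤ ε / 4 + ε / 4 * (TT / Q) := by
      have h2 : ε / 4 / Q ≤ ε / 4 := div_le_self (by positivity) hQ1
      have h3 : ((s.filter fun K => Nat.card (Orb K X) = 4).card : ℝ) * (ε / 4 / Q)
          ≤ TT * (ε / 4 / Q) := mul_le_mul_of_nonneg_right hs4 (by positivity)
      calc _ = ε / 4 / Q + ((s.filter fun K => Nat.card (Orb K X) = 4).card : ℝ)
            * (ε / 4 / Q) := by ring
        _ ≤ ε / 4 + TT * (ε / 4 / Q) := add_le_add h2 h3
        _ = _ := by ring
    have h2 : ε / 8 / Q * TT = ε / 8 * (TT / Q) := by ring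
    have h3 : 0 ≤ TT / Q := by positivity
    rw [h2] at hEsum
    nlinarith [mul_nonneg hε.le h3]
  -- the cover
  have hcover : (Finset.univ.filter fun Φ : Finset X => CMType c Φ ∧ ¬ GeneratedByDivisors G Φ)
      ⊆ (Finset.univ : Finset ι).biUnion fun i => badC c (S i) := by
    intro Φ hΦ
    obtain ⟨hcm, hngd⟩ := (Finset.mem_filter.mp hΦ).2
    have hnd : ¬ Nondeg c Φ := fun h =>
      hngd (generatedByDivisors_of_nondeg hA.comm hA.sq hA.free hcm h)
    obtain ⟨M, hM, hMo, hv⟩ := exists_simple_of_deg hA hcm hnd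
    obtain ⟨i, ⟨e⟩⟩ := hall M hM hMo
    rw [Finset.mem_biUnion]
    exact ⟨i, Finset.mem_univ _, (mem_badC c (S i) Φ).mpr ⟨hcm, M, ⟨e.symm⟩, hv⟩⟩
  rw [Nat.card_eq_fintype_card, Fintype.card_subtype]
  have h1 : ((Finset.univ.filter fun Φ : Finset X =>
      CMType c Φ ∧ ¬ GeneratedByDivisors G Φ).card : ℝ) ≤ ∑ i, ((badC c (S i)).card : ℝ) := by
    exact_mod_cast (Finset.card_le_card hcover).trans Finset.card_biUnion_le
  have h2 : ∑ i, ((badC c (S i)).card : ℝ) = (∑ i, N i) * 2 ^ g := by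
    rw [Finset.sum_mul]
    refine Finset.sum_congr rfl fun i _ => ?_
    show _ = ((badC c (S i)).card : ℝ) / 2 ^ g * 2 ^ g
    rw [div_mul_cancel₀]
    positivity
  calc _ ≤ _ := h1
    _ = (∑ i, N i) * 2 ^ g := h2
    _ ≤ ε * (1 + TT / Q) * 2 ^ g := mul_le_mul_of_nonneg_right hfinal (by positivity)

end Pool.Agent.Lib.MP_938ce2_ag_u3
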