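import Mathlib
import Pool.Agent.Lib.MP_938ce2_ag_u3.Main3
import Pool.Agent.Lib.MP_938ce2_ag_u3.Field3

/-!
Theorem U3.
-/

set_option autoImplicit false
set_option linter.unusedSectionVars false

namespace Pool.Agent.Lib.MP_938ce2_ag_u3

open Finset Module NumberField
open Pool.Agent.Lib.MP_938ce2_ag_h60 (CMType GeneratedByDivisors conj)

theorem theoremU3 : ∀ η : ℝ, 0 < η → ∃ g₀ : ℕ, ∀ (L E : Type) [Field L] [NumberField L]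
      [IsGalois ℚ L] [IsCMField L] [Field E] [NumberField E] [IsCMField E] [Nonempty (E →ₐ[ℚ] L)]
      (g : ℕ), finrank ℚ E = 2 * g → g₀ ≤ g → ∀ s : Finset (IntermediateField ℚ E),
      (∀ F : IntermediateField ℚ E, IsCMField F → ¬ (finrank ℚ F / 2).Coprime 6 →
        ∀ N : IntermediateField ℚ L, IsGalois ℚ N → Nonempty (F →ₐ[ℚ] N) →
          finrank ℚ N ≤ 2 * finrank ℚ F → F ∈ s) →
      (Nat.card {Φ : Finset (E →ₐ[ℚ] L) //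
          CMType (conj L) Φ ∧ ¬ GeneratedByDivisors (L ≃ₐ[ℚ] L) Φ} : ℝ)
        ≤ η * (1 + (∑ F ∈ s, (finrank ℚ F : ℝ) ^ 2) / (g : ℝ) ^ (1 / 4 : ℝ)) * 2 ^ g := by
  intro η hη
  obtain ⟨g₀, h⟩ := main_G3 η hη
  refine ⟨g₀, ?_⟩
  intro L E _ _ _ _ _ _ _ _ g hE hg s hs
  obtain ⟨t, ht1, ht2⟩ := exc_of_field L E s hs
  refine (h (L ≃ₐ[ℚ] L) (E →ₐ[ℚ] L) (conj L) g ⟨?_, ?_, ?_, ?_, ?_⟩ hg t ht1).trans ?_
  · exact Pool.Agent.Lib.MP_938ce2_ag_h60.conj_comm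
  · exact Pool.Agent.Lib.MP_938ce2_ag_h60.conj_mul_self
  · exact fun φ => Pool.Agent.Lib.MP_938ce2_ag_h60.conj_smul_ne φ
  · rw [← hE]
    exact Pool.Agent.Lib.MP_938ce2_ag_h60.card_emb
  · have : 0 < finrank ℚ E := finrank_pos
    omega
  · have h1 : (∑ K ∈ t, (Nat.card (Pool.Agent.Lib.MP_938ce2_ag_h67.Orb K (E →ₐ[ℚ] L)) : ℝ) ^ 2)
        / (g : ℝ) ^ (1 / 4 : ℝ)
        ≤ (∑ F ∈ s, (finrank ℚ F : ℝ) ^ 2) / (g : ℝ) ^ (1 / 4 : ℝ) :=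
      div_le_div_of_nonneg_right ht2 (by positivity)
    gcongr

end Pool.Agent.Lib.MP_938ce2_ag_u3
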