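import Mathlib
import Pool.Agent.Lib.MP_938ce2_ag_u3.Final3

/-!
Most abelian varieties with complex multiplication by a CM field `E` of degree `2g`: the Tate classes
on all their powers are generated by divisor classes, except for a proportion of the CM types of `E`
which is bounded in terms of the CM subfields `F` of `E` whose Galois closure has degree at most
`2 [F : ℚ]` and for which `[F : ℚ] / 2` is not prime to `6`.
-/

set_option autoImplicit false

namespace Pool.Agent.Results.MP_938ce2_ag.MostCMTypes

open Module NumberField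
open Pool.Agent.Lib.MP_938ce2_ag_h60 (CMType GeneratedByDivisors conj)

/-- `L` is a Galois CM field which contains a conjugate of the CM field `E` of degree `2g`, for
instance the Galois closure of `E`. The field `E` has `2 ^ g` CM types, each consists of one embedding
of each pair of complex conjugate ones. The set `s` contains the exceptional CM subfields of `E`. -/
theorem result : ∀ η : ℝ, 0 < η → ∃ g₀ : ℕ, ∀ (L E : Type) [Field L] [NumberField L]
      [IsGalois ℚ L] [IsCMField L] [Field E] [NumberField E] [IsCMField E] [Nonempty (E →ₐ[ℚ] L)]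
      (g : ℕ), finrank ℚ E = 2 * g → g₀ ≤ g → ∀ s : Finset (IntermediateField ℚ E),
      (∀ F : IntermediateField ℚ E, IsCMField F → ¬ (finrank ℚ F / 2).Coprime 6 →
        ∀ N : IntermediateField ℚ L, IsGalois ℚ N → Nonempty (F →ₐ[ℚ] N) →
          finrank ℚ N ≤ 2 * finrank ℚ F → F ∈ s) →
      (Nat.card {Φ : Finset (E →ₐ[ℚ] L) //
          CMType (conj L) Φ ∧ ¬ GeneratedByDivisors (L ≃ₐ[ℚ] L) Φ} : ℝ)
        ≤ η * (1 + (∑ F ∈ s, (finrank ℚ F : ℝ) ^ 2) / (g : ℝ) ^ (1 / 4 : ℝ)) * 2 ^ g :=
  Pool.Agent.Lib.MP_938ce2_ag_u3.theoremU3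

end Pool.Agent.Results.MP_938ce2_ag.MostCMTypes
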